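import Pool.Agent.Lib.MP_54c5a6_an.Core

/-!
# Closing off: dense absolutely convex Σ-subsets produce closed subsystems
-/

namespace Pool.Agent.Lib.MP_54c5a6_an

open Complex

/-- Closing off a countable set under countably-valued finitary operations. -/
theorem exists_closed {S : Type} (Φ : Finset S → Set S) (hΦ : ∀ x, (Φ x).Countable) (S₀ : Set S)
    (h₀ : S₀.Countable) :
    ∃ S₁, S₀ ⊆ S₁ ∧ S₁.Countable ∧ ∀ x : Finset S, (∀ a ∈ x, a ∈ S₁) → Φ x ⊆ S₁ := by
  classical
  have hfin : ∀ T : Set S, T.Countable → {x : Finset S | ∀ a ∈ x, a ∈ T}.Countable := by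
    intro T hT
    have := hT.to_subtype
    have : {x : Finset S | ∀ a ∈ x, a ∈ T} ⊆
        Set.range (fun y : Finset T => y.map (Function.Embedding.subtype _)) := by
      intro x hx
      refine ⟨x.subtype (· ∈ T), ?_⟩
      exact Finset.subtype_map_of_mem hx
    exact (Set.countable_range _).mono this
  let step : Set S → Set S := fun T => T ∪ ⋃ x ∈ {x : Finset S | ∀ a ∈ x, a ∈ T}, Φ x
  let T : ℕ → Set S := fun n => step^[n] S₀
  have hTs : ∀ n, T (n + 1) = step (T n) := fun n => Function.iterate_succ_apply' step n S₀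
  have hmono : Monotone T := by
    apply monotone_nat_of_le_succ
    intro n
    rw [hTs]
    exact Set.subset_union_left
  have hcount : ∀ n, (T n).Countable := by
    intro n
    induction n with
    | zero => exact h₀
    | succ n ih =>
      rw [hTs]
      exact ih.union ((hfin _ ih).biUnion fun x _ => hΦ x)
  refine ⟨⋃ n, T n, Set.subset_iUnion T 0, Set.countable_iUnion hcount, ?_⟩
  intro x hx
  have : ∃ n, ∀ a ∈ x, a ∈ T n := by
    induction x using Finset.induction_on with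
    | empty => exact ⟨0, by simp⟩
    | insert b y hb ih =>
      obtain ⟨n, hn⟩ := ih (fun a ha => hx a (Finset.mem_insert_of_mem ha))
      obtain ⟨m, hm⟩ := Set.mem_iUnion.1 (hx b (Finset.mem_insert_self _ _))
      refine ⟨max n m, ?_⟩
      intro a ha
      rcases Finset.mem_insert.1 ha with rfl | ha
      · exact hmono (le_max_right n m) hm
      · exact hmono (le_max_left n m) (hn a ha)
  obtain ⟨n, hn⟩ := this
  refine Set.Subset.trans ?_ (Set.subset_iUnion T (n + 1))
  rw [hTs]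
  intro z hz
  exact Or.inr (Set.mem_biUnion (show x ∈ {x : Finset S | ∀ a ∈ x, a ∈ T n} from hn) hz)

/-- A continuous function on a compact subset of a product depends on countably many
coordinates. -/
theorem exists_countable_dep {J X : Type} [TopologicalSpace X] [T2Space X] {A : Set (J → X)}
    (hA : IsCompact A) (f : (J → X) → ℝ) (hf : ContinuousOn f A) :
    ∃ D : Set J, D.Countable ∧ ∀ F ∈ A, ∀ G ∈ A, (∀ j ∈ D, F j = G j) → f F = f G := by
  have h1 : ∀ n : ℕ, ∃ t : Finset J, (A ×ˢ A) ∩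
      (fun p : (J → X) × (J → X) => |f p.1 - f p.2|) ⁻¹' (Set.Ici (1 / (n + 1 : ℝ))) ⊆
      ⋃ j ∈ t, {p : (J → X) × (J → X) | p.1 j ≠ p.2 j} := by
    intro n
    have hAA : IsCompact (A ×ˢ A) := hA.prod hA
    have hcont : ContinuousOn (fun p : (J → X) × (J → X) => |f p.1 - f p.2|) (A ×ˢ A) := by
      apply ContinuousOn.abs
      apply ContinuousOn.sub
      · exact hf.comp continuous_fst.continuousOn (fun p hp => hp.1)
      · exact hf.comp continuous_snd.continuousOn (fun p hp => hp.2)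
    have hcl := hcont.preimage_isClosed_of_isClosed hAA.isClosed
      (isClosed_Ici (a := 1 / (n + 1 : ℝ)))
    have hcp : IsCompact ((A ×ˢ A) ∩
      (fun p : (J → X) × (J → X) => |f p.1 - f p.2|) ⁻¹' (Set.Ici (1 / (n + 1 : ℝ)))) :=
      hAA.of_isClosed_subset hcl Set.inter_subset_left
    apply hcp.elim_finite_subcover
    · intro j
      exact isOpen_ne_fun ((continuous_apply j).comp continuous_fst)
        ((continuous_apply j).comp continuous_snd)
    · rintro ⟨F, G⟩ ⟨-, hFG⟩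
      simp only [Set.mem_preimage, Set.mem_Ici] at hFG
      have hne : F ≠ G := by
        rintro rfl
        rw [sub_self, abs_zero] at hFG
        have : (0 : ℝ) < 1 / (n + 1 : ℝ) := by positivity
        linarith
      obtain ⟨j, hj⟩ := Function.ne_iff.1 hne
      exact Set.mem_iUnion.2 ⟨j, hj⟩
  choose t ht using h1
  refine ⟨⋃ n, (t n : Set J), Set.countable_iUnion fun n => (t n).countable_toSet, ?_⟩
  intro F hF G hG hagree
  by_contra hne
  have hpos : 0 < |f F - f G| := abs_pos.2 (sub_ne_zero.2 hne)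
  obtain ⟨n, hn⟩ := exists_nat_one_div_lt hpos
  have hmem : (F, G) ∈ (A ×ˢ A) ∩
      (fun p : (J → X) × (J → X) => |f p.1 - f p.2|) ⁻¹' (Set.Ici (1 / (n + 1 : ℝ))) :=
    ⟨⟨hF, hG⟩, hn.le⟩
  obtain ⟨j, hj⟩ := Set.mem_iUnion.1 (ht n hmem)
  obtain ⟨hjt, hj2⟩ := Set.mem_iUnion.1 hj
  exact hj2 (hagree j (Set.mem_iUnion.2 ⟨n, hjt⟩))

/-- Countable approximation of images. -/
theorem exists_countable_approx {X Y : Type} [TopologicalSpace X] [TopologicalSpace Y]
    [SecondCountableTopology Y] (ρ : X → Y) (hρ : Continuous ρ) (A : Set X) :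
    ∃ c ⊆ A, c.Countable ∧ ∀ x ∈ closure A, ρ x ∈ closure (ρ '' c) := by
  classical
  obtain ⟨s, hs, hd⟩ := TopologicalSpace.exists_countable_dense ↥(ρ '' A)
  have hch : ∀ y : ↥(ρ '' A), ∃ x ∈ A, ρ x = y := fun y => y.2
  choose g hg1 hg2 using hch
  refine ⟨g '' s, ?_, hs.image g, ?_⟩
  · rintro _ ⟨y, _, rfl⟩
    exact hg1 y
  · have himg : ρ '' (g '' s) = Subtype.val '' s := by
      rw [Set.image_image]
      exact Set.image_congr fun y _ => hg2 y
    have h1 : ρ '' A ⊆ closure (ρ '' (g '' s)) := by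
      rw [himg]
      exact Subtype.dense_iff.1 hd
    intro x hx
    have h2 : ρ x ∈ closure (ρ '' A) := image_closure_subset_closure_image hρ ⟨x, hx, rfl⟩
    exact closure_minimal h1 isClosed_closure h2

variable {Γ : Type}

/-- the indices occurring in a coordinate -/
def ind : Ix Γ → Set Γ
  | .star => ∅
  | .one α => {α}
  | .two α β => {α, β}

lemma ind_finite (j : Ix Γ) : (ind j).Finite := by
  rcases j with _ | α | ⟨α, β⟩
  · exact Set.finite_empty
  · exact Set.finite_singleton α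
  · exact (Set.finite_singleton β).insert α

lemma mem_Jx_iff {N : Set Γ} {j : Ix Γ} : j ∈ Jx N ↔ ind j ⊆ N := by
  rcases j with _ | α | ⟨α, β⟩
  · exact ⟨fun _ => Set.empty_subset _, fun _ => trivial⟩
  · exact ⟨fun h => Set.singleton_subset_iff.2 h, fun h => one_mem_Jx.2 (h (Set.mem_singleton α))⟩
  · constructor
    · rintro ⟨h1, h2⟩
      exact Set.insert_subset h1 (Set.singleton_subset_iff.2 h2)
    · intro h
      exact ⟨h (Set.mem_insert _ _), h (Set.mem_insert_of_mem _ rfl)⟩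

lemma countable_Jx {N : Set Γ} (hN : N.Countable) : (Jx N).Countable := by
  have : Jx N ⊆ {Ix.star} ∪ (Ix.one '' N ∪ (fun p : Γ × Γ => Ix.two p.1 p.2) '' (N ×ˢ N)) := by
    rintro (_ | α | ⟨α, β⟩) hj
    · exact Or.inl rfl
    · exact Or.inr (Or.inl ⟨α, hj, rfl⟩)
    · exact Or.inr (Or.inr ⟨(α, β), hj, rfl⟩)
  exact ((Set.countable_singleton _).union ((hN.image _).union ((hN.prod hN).image _))).mono this

/-- The closing-off theorem. -/
theorem exists_sys [Nontrivial Γ] {Γ' : Type} (h : P Γ → Γ' → ℝ) (hc : ContinuousOn h (B Γ))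
    (hinj : Set.InjOn h (B Γ)) (A : Set (P Γ)) (hAB : A ⊆ B Γ)
    (hAcount : ∀ F ∈ A, {δ | h F δ ≠ 0}.Countable)
    (hdense : B Γ ⊆ closure A)
    (habs : ∀ s t : ℂ, ‖s‖ + ‖t‖ ≤ 1 → ∀ F ∈ A, ∀ G ∈ A, s • F + t • G ∈ A)
    (C₀ : Set (P Γ)) (N₀ : Set Γ) (hC₀A : C₀ ⊆ A) (hC₀ : C₀.Countable) (hN₀ : N₀.Countable) :
    ∃ (C : Set (P Γ)) (N : Set Γ), C₀ ⊆ C ∧ N₀ ⊆ N ∧ C ⊆ A ∧ C.Countable ∧ N.Countable ∧
      Sys (closure C) N := by
  classical
  -- dependence
  have hcδ : ∀ δ, ContinuousOn (fun F => h F δ) (B Γ) := fun δ =>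
    (continuous_apply δ).comp_continuousOn hc
  have hdep := fun δ => exists_countable_dep isCompact_B (fun F => h F δ) (hcδ δ)
  choose D hDc hD using hdep
  -- coefficients
  let Δ : Type := {p : ℂ × ℂ // ‖p.1‖ + ‖p.2‖ ≤ 1}
  have : Nonempty Δ := ⟨⟨(0, 0), by simp⟩⟩
  let coef : ℕ → Δ := TopologicalSpace.denseSeq Δ
  have hcoef : DenseRange coef := TopologicalSpace.denseRange_denseSeq Δ
  -- approximating sets
  have happ : ∀ N : Set Γ, ∃ c ⊆ A, c.Countable ∧ (N.Countable → ∀ F ∈ closure A,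
      (fun F : P Γ => fun j : Jx N => F j) F ∈
        closure ((fun F : P Γ => fun j : Jx N => F j) '' c)) := by
    intro N
    by_cases hN : N.Countable
    · have : Countable (Jx N) := (countable_Jx hN).to_subtype
      obtain ⟨c, hc1, hc2, hc3⟩ := exists_countable_approx
        (fun F : P Γ => fun j : Jx N => F j) (by fun_prop) A
      exact ⟨c, hc1, hc2, fun _ => hc3⟩
    · exact ⟨∅, Set.empty_subset _, Set.countable_empty, fun h => absurd h hN⟩
  choose cs hcsA hcsC hcs using happ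
  -- operations
  let S : Type := ↥A ⊕ Γ
  let opb : ℕ → S → S → Set S := fun n a b =>
    match a, b with
    | .inl F, .inl G => {Sum.inl ⟨(coef n).1.1 • F.1 + (coef n).1.2 • G.1,
        habs _ _ (coef n).2 _ F.2 _ G.2⟩}
    | _, _ => ∅
  let opd : S → Set S := fun a =>
    match a with
    | .inl F => Sum.inr '' (⋃ δ ∈ {δ | h F.1 δ ≠ 0}, ⋃ j ∈ D δ, ind j)
    | .inr _ => ∅
  let opc : Finset S → Set S := fun x =>
    {z | ∃ F : P Γ, ∃ hF : F ∈ cs {γ | Sum.inr γ ∈ x}, z = Sum.inl ⟨F, hcsA _ hF⟩}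
  let Φ : Finset S → Set S := fun x =>
    (⋃ a ∈ x, ⋃ b ∈ x, ⋃ n : ℕ, opb n a b) ∪ ((⋃ a ∈ x, opd a) ∪ opc x)
  have hΦ : ∀ x, (Φ x).Countable := by
    intro x
    refine Set.Countable.union ?_ (Set.Countable.union ?_ ?_)
    · refine x.countable_toSet.biUnion fun a _ => x.countable_toSet.biUnion fun b _ =>
        Set.countable_iUnion fun n => ?_
      rcases a with F | γ <;> rcases b with G | δ
      · exact Set.countable_singleton _
      · exact Set.countable_empty
      · exact Set.countable_empty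
      · exact Set.countable_empty
    · refine x.countable_toSet.biUnion fun a _ => ?_
      rcases a with F | γ
      · refine Set.Countable.image ?_ _
        refine (hAcount F.1 F.2).biUnion fun δ _ => (hDc δ).biUnion fun j _ =>
          (ind_finite j).countable
      · exact Set.countable_empty
    · have : opc x ⊆ (fun F : P Γ => if hF : F ∈ A then (Sum.inl ⟨F, hF⟩ : S) else
          (Sum.inr (Classical.arbitrary Γ))) '' (cs {γ | Sum.inr γ ∈ x}) := by
        rintro z ⟨F, hF, rfl⟩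
        refine ⟨F, hF, ?_⟩
        simp only [dif_pos (hcsA _ hF)]
      exact ((hcsC _).image _).mono this
  obtain ⟨S₁, hS₀, hS₁c, hS₁⟩ := exists_closed Φ hΦ
    ({z | ∃ F : P Γ, ∃ hF : F ∈ C₀, z = Sum.inl ⟨F, hC₀A hF⟩} ∪ Sum.inr '' N₀) (by
      refine Set.Countable.union ?_ (hN₀.image _)
      have : {z : S | ∃ F : P Γ, ∃ hF : F ∈ C₀, z = Sum.inl ⟨F, hC₀A hF⟩} ⊆
          (fun F : P Γ => if hF : F ∈ A then (Sum.inl ⟨F, hF⟩ : S) else
          (Sum.inr (Classical.arbitrary Γ))) '' C₀ := by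
        rintro z ⟨F, hF, rfl⟩
        refine ⟨F, hF, ?_⟩
        simp only [dif_pos (hC₀A hF)]
      exact (hC₀.image _).mono this)
  let C : Set (P Γ) := {F | ∃ hF : F ∈ A, (Sum.inl ⟨F, hF⟩ : S) ∈ S₁}
  let N : Set Γ := {γ | (Sum.inr γ : S) ∈ S₁}
  have hCA : C ⊆ A := fun F hF => hF.1
  have hCB : C ⊆ B Γ := hCA.trans hAB
  have hCc : C.Countable := by
    have : C = (fun F : ↥A => F.1) '' (Sum.inl ⁻¹' S₁) := by
      ext F
      constructor
      · rintro ⟨hF, hF2⟩
        exact ⟨⟨F, hF⟩, hF2, rfl⟩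
      · rintro ⟨G, hG, rfl⟩
        exact ⟨G.2, hG⟩
    rw [this]
    exact (hS₁c.preimage Sum.inl_injective).image _
  have hNc : N.Countable := hS₁c.preimage Sum.inr_injective
  have hclB : closure C ⊆ B Γ := closure_minimal hCB isClosed_B
  have hKc : IsCompact (closure C) := isCompact_B.of_isClosed_subset isClosed_closure hclB
  refine ⟨C, N, ?_, ?_, hCA, hCc, hNc, ⟨hKc, hclB, ?_, ?_, ?_⟩⟩
  · intro F hF
    exact ⟨hC₀A hF, hS₀ (Or.inl ⟨F, hF, rfl⟩)⟩
  · intro γ hγ
    exact hS₀ (Or.inr ⟨γ, hγ, rfl⟩)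
  · -- absolutely convex
    intro s t hst F hF G hG
    let comb : Δ × (P Γ × P Γ) → P Γ := fun q => q.1.1.1 • q.2.1 + q.1.1.2 • q.2.2
    have hcomb : Continuous comb := by
      have h1 : Continuous fun q : Δ × (P Γ × P Γ) => q.1.1.1 :=
        continuous_fst.comp (continuous_subtype_val.comp continuous_fst)
      have h2 : Continuous fun q : Δ × (P Γ × P Γ) => q.1.1.2 :=
        continuous_snd.comp (continuous_subtype_val.comp continuous_fst)
      exact (h1.smul (continuous_fst.comp continuous_snd)).add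
        (h2.smul (continuous_snd.comp continuous_snd))
    have hmaps : ∀ q ∈ (Set.range coef) ×ˢ (C ×ˢ C), comb q ∈ C := by
      rintro ⟨_, F, G⟩ ⟨⟨n, rfl⟩, ⟨hFA, hFS⟩, ⟨hGA, hGS⟩⟩
      refine ⟨habs _ _ (coef n).2 _ hFA _ hGA, ?_⟩
      have := hS₁ {Sum.inl ⟨F, hFA⟩, Sum.inl ⟨G, hGA⟩} (by
        intro a ha
        rw [Finset.mem_insert, Finset.mem_singleton] at ha
        rcases ha with rfl | rfl
        · exact hFS
        · exact hGS)
      apply this
      refine Or.inl ?_
      refine Set.mem_biUnion (show (Sum.inl ⟨F, hFA⟩ : S) ∈ _ from Finset.mem_insert_self _ _) ?_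
      refine Set.mem_biUnion (show (Sum.inl ⟨G, hGA⟩ : S) ∈ _ from
        Finset.mem_insert_of_mem (Finset.mem_singleton_self _)) ?_
      exact Set.mem_iUnion.2 ⟨n, rfl⟩
    have hcl : (⟨⟨(s, t), hst⟩, F, G⟩ : Δ × (P Γ × P Γ)) ∈
        closure ((Set.range coef) ×ˢ (C ×ˢ C)) := by
      rw [closure_prod_eq, closure_prod_eq]
      exact ⟨hcoef _, hF, hG⟩
    have := map_mem_closure hcomb hcl hmaps
    exact this
  · -- uniqueness
    intro F hF G hG hFG
    apply hinj (hclB hF) (hclB hG)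
    funext δ
    by_cases hδ : ∃ H ∈ C, h H δ ≠ 0
    · obtain ⟨H, ⟨hHA, hHS⟩, hHδ⟩ := hδ
      apply hD δ F (hclB hF) G (hclB hG)
      intro j hj
      apply hFG
      rw [mem_Jx_iff]
      intro γ hγ
      have := hS₁ {Sum.inl ⟨H, hHA⟩} (by
        intro a ha
        rw [Finset.mem_singleton] at ha
        rw [ha]
        exact hHS)
      apply this
      refine Or.inr (Or.inl ?_)
      refine Set.mem_biUnion (show (Sum.inl ⟨H, hHA⟩ : S) ∈ _ from Finset.mem_singleton_self _) ?_
      exact ⟨γ, Set.mem_biUnion hHδ (Set.mem_biUnion hj hγ), rfl⟩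
    · push Not at hδ
      have hcl : IsClosed (B Γ ∩ (fun F => h F δ) ⁻¹' {0}) :=
        (hcδ δ).preimage_isClosed_of_isClosed isClosed_B isClosed_singleton
      have hsub : closure C ⊆ B Γ ∩ (fun F => h F δ) ⁻¹' {0} :=
        closure_minimal (fun H hH => ⟨hCB hH, hδ H hH⟩) hcl
      have e1 : h F δ = 0 := (hsub hF).2
      have e2 : h G δ = 0 := (hsub hG).2
      rw [e1, e2]
  · -- existence
    intro F hF
    apply exists_agree hKc
    intro I hI
    let V : Finset Γ := I.biUnion fun j => (ind_finite j).toFinset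
    have hVN : ∀ γ ∈ V, γ ∈ N := by
      intro γ hγ
      rw [Finset.mem_biUnion] at hγ
      obtain ⟨j, hj, hγj⟩ := hγ
      rw [Set.Finite.mem_toFinset] at hγj
      exact mem_Jx_iff.1 (hI j hj) hγj
    let x : Finset S := V.map Function.Embedding.inr
    have hx : {γ : Γ | (Sum.inr γ : S) ∈ x} = (V : Set Γ) := by
      ext γ
      simp [x]
    have hsub := hS₁ x (by
      intro a ha
      simp only [x, Finset.mem_map] at ha
      obtain ⟨γ, hγ, rfl⟩ := ha
      exact hVN γ hγ)
    have hcsC' : cs (V : Set Γ) ⊆ C := by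
      intro G hG
      rw [← hx] at hG
      exact ⟨hcsA _ hG, hsub (Or.inr (Or.inr ⟨G, hG, rfl⟩))⟩
    have h1 := hcs (V : Set Γ) V.countable_toSet F (hdense hF)
    have h2 : IsClosed ((fun F : P Γ => fun j : Jx (V : Set Γ) => F j) '' closure C) :=
      (hKc.image (by fun_prop)).isClosed
    have h3 : (fun F : P Γ => fun j : Jx (V : Set Γ) => F j) F ∈
        (fun F : P Γ => fun j : Jx (V : Set Γ) => F j) '' closure C := by
      refine closure_minimal ?_ h2 h1
      exact Set.image_mono (hcsC'.trans subset_closure)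
    obtain ⟨G, hG, hGF⟩ := h3
    refine ⟨G, hG, fun j hj => ?_⟩
    have hjV : j ∈ Jx (V : Set Γ) := by
      rw [mem_Jx_iff]
      intro γ hγ
      rw [Finset.mem_coe, Finset.mem_biUnion]
      exact ⟨j, hj, (Set.Finite.mem_toFinset _).2 hγ⟩
    exact congrFun hGF ⟨j, hjV⟩

end Pool.Agent.Lib.MP_54c5a6_an
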