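import Pool.Agent.Lib.MP_54c5a6_an.Space

/-!
# Closed subsystems and the rigidity lemmas
-/

namespace Pool.Agent.Lib.MP_54c5a6_an

open Complex

/-- Compactness: agreement on all finite subsets of `S` gives agreement on `S`. -/
theorem exists_agree {J X : Type} [TopologicalSpace X] [T2Space X] {K : Set (J → X)}
    (hK : IsCompact K) (S : Set J) (F : J → X)
    (h : ∀ I : Finset J, (∀ i ∈ I, i ∈ S) → ∃ G ∈ K, ∀ j ∈ I, G j = F j) :
    ∃ G ∈ K, ∀ j ∈ S, G j = F j := by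
  classical
  have := hK.inter_iInter_nonempty (fun j : S => {G : J → X | G j = F j})
    (fun j => isClosed_eq (continuous_apply _) continuous_const) (by
      intro u
      obtain ⟨G, hG, hGu⟩ := h (u.image Subtype.val) (by
        intro i hi
        rw [Finset.mem_image] at hi
        obtain ⟨a, _, rfl⟩ := hi
        exact a.2)
      refine ⟨G, hG, ?_⟩
      simp only [Set.mem_iInter]
      intro i hi
      exact hGu _ (Finset.mem_image_of_mem _ hi))
  obtain ⟨G, hG, hG2⟩ := this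
  simp only [Set.mem_iInter] at hG2
  exact ⟨G, hG, fun j hj => hG2 ⟨j, hj⟩⟩

/-- A map on an absolutely convex set which respects absolutely convex combinations extends
linearly. -/
theorem exists_linear_ext {V W : Type} [AddCommGroup V] [Module ℂ V] [AddCommGroup W] [Module ℂ W]
    (A : Set V) (q : V → W) (h0 : 0 ∈ A)
    (hA : ∀ s t : ℂ, ‖s‖ + ‖t‖ ≤ 1 → ∀ x ∈ A, ∀ y ∈ A, s • x + t • y ∈ A)
    (hq : ∀ s t : ℂ, ‖s‖ + ‖t‖ ≤ 1 → ∀ x ∈ A, ∀ y ∈ A, q (s • x + t • y) = s • q x + t • q y) :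
    ∃ Λ : V →ₗ[ℂ] W, ∀ x ∈ A, Λ x = q x := by
  have hq0 : q 0 = 0 := by
    have := hq 0 0 (by simp) 0 h0 0 h0
    simpa using this
  have hsm : ∀ s : ℂ, ‖s‖ ≤ 1 → ∀ x ∈ A, s • x ∈ A ∧ q (s • x) = s • q x := by
    intro s hs x hx
    have h1 := hA s 0 (by simpa using hs) x hx 0 h0
    have h2 := hq s 0 (by simpa using hs) x hx 0 h0
    rw [smul_zero, add_zero] at h1
    rw [smul_zero, add_zero, zero_smul, add_zero] at h2
    exact ⟨h1, h2⟩
  let 𝒢 : Submodule ℂ (V × W) :=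
    { carrier := {p | ∃ c : ℝ, 0 < c ∧ ∃ x ∈ A, p = ((c : ℂ) • x, (c : ℂ) • q x)}
      add_mem' := by
        rintro _ _ ⟨c, hc, x, hx, rfl⟩ ⟨d, hd, y, hy, rfl⟩
        have hcd : (c + d : ℂ) ≠ 0 := by exact_mod_cast (add_pos hc hd).ne'
        have hn : ‖(c : ℂ) / (c + d)‖ + ‖(d : ℂ) / (c + d)‖ ≤ 1 := by
          rw [← ofReal_add, norm_div, norm_div, norm_real, norm_real, norm_real,
            Real.norm_of_nonneg hc.le, Real.norm_of_nonneg hd.le,
            Real.norm_of_nonneg (add_pos hc hd).le, ← add_div, div_self (add_pos hc hd).ne']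
        refine ⟨c + d, add_pos hc hd, _, hA _ _ hn x hx y hy, ?_⟩
        rw [hq _ _ hn x hx y hy]
        simp only [Prod.mk_add_mk, ofReal_add, smul_add, smul_smul, mul_div_cancel₀ _ hcd]
      zero_mem' := ⟨1, one_pos, 0, h0, by simp [hq0]; rfl⟩
      smul_mem' := by
        rintro z _ ⟨c, hc, x, hx, rfl⟩
        by_cases hz : z = 0
        · exact ⟨1, one_pos, 0, h0, by simp [hz, hq0]; rfl⟩
        · have hz' : (‖z‖ : ℂ) ≠ 0 := by simpa using hz
          have hn : ‖z / ‖z‖‖ ≤ 1 := by simp [hz]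
          obtain ⟨h1, h2⟩ := hsm (z / ‖z‖) hn x hx
          refine ⟨‖z‖ * c, mul_pos (norm_pos_iff.2 hz) hc, _, h1, ?_⟩
          rw [h2, Prod.smul_mk]
          simp only [ofReal_mul, smul_smul]
          have e : (‖z‖ : ℂ) * c * (z / ‖z‖) = z * c := by
            field_simp
          rw [e] }
  have hg : ∀ p ∈ 𝒢, p.1 = 0 → p.2 = 0 := by
    rintro _ ⟨c, hc, x, hx, rfl⟩ h
    have hc' : (c : ℂ) ≠ 0 := by exact_mod_cast hc.ne'
    rcases smul_eq_zero.1 h with h1 | h1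
    · exact absurd h1 hc'
    · simp only
      rw [h1, hq0, smul_zero]
  have hgraph := 𝒢.toLinearPMap_graph_eq hg
  obtain ⟨Λ, hΛ⟩ := LinearMap.exists_extend 𝒢.toLinearPMap.toFun
  refine ⟨Λ, fun x hx => ?_⟩
  have hmem : (x, q x) ∈ 𝒢.toLinearPMap.graph := by
    rw [hgraph]
    exact ⟨1, one_pos, x, hx, by simp⟩
  rw [LinearPMap.mem_graph_iff] at hmem
  obtain ⟨y, hy1, hy2⟩ := hmem
  have h3 := LinearMap.congr_fun hΛ y
  simp only [LinearMap.coe_comp, Function.comp_apply, Submodule.coe_subtype] at h3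
  simp only at hy1 hy2
  rw [hy1] at h3
  rw [h3]
  exact hy2

variable {Γ : Type}

/-- the coordinates determined by a set of indices -/
def Jx (N : Set Γ) : Set (Ix Γ)
  | .star => True
  | .one α => α ∈ N
  | .two α β => α ∈ N ∧ β ∈ N

lemma star_mem_Jx (N : Set Γ) : (Ix.star : Ix Γ) ∈ Jx N := trivial

lemma one_mem_Jx {N : Set Γ} {α : Γ} : (Ix.one α : Ix Γ) ∈ Jx N ↔ α ∈ N := Iff.rfl

lemma two_mem_Jx {N : Set Γ} {α β : Γ} : (Ix.two α β : Ix Γ) ∈ Jx N ↔ α ∈ N ∧ β ∈ N := Iff.rfl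

/-- A closed subsystem: a compact absolutely convex `K ⊆ B` which is mapped bijectively onto the
restriction of `B` to the `N`-coordinates. -/
structure Sys (K : Set (P Γ)) (N : Set Γ) : Prop where
  compact : IsCompact K
  sub : K ⊆ B Γ
  abs : ∀ s t : ℂ, ‖s‖ + ‖t‖ ≤ 1 → ∀ F ∈ K, ∀ G ∈ K, s • F + t • G ∈ K
  uniq : ∀ F ∈ K, ∀ G ∈ K, (∀ j ∈ Jx N, F j = G j) → F = G
  ex : ∀ F ∈ B Γ, ∃ G ∈ K, ∀ j ∈ Jx N, G j = F j

namespace Sys

variable {K : Set (P Γ)} {N : Set Γ}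

lemma zero_mem (S : Sys K N) : (0 : P Γ) ∈ K := by
  obtain ⟨G, hG, -⟩ := S.ex 0 zero_mem_B
  have := S.abs 0 0 (by simp) G hG G hG
  simpa using this

/-- The linear extension of the projection `B → K`. -/
lemma exists_proj (S : Sys K N) : ∃ Λ : P Γ →ₗ[ℂ] P Γ, ∀ F ∈ B Γ, Λ F ∈ K ∧
    ∀ j ∈ Jx N, Λ F j = F j := by
  choose! q hq1 hq2 using S.ex
  obtain ⟨Λ, hΛ⟩ := exists_linear_ext (B Γ) q zero_mem_B
    (fun s t hst x hx y hy => abs_B hst hx hy) (by
      intro s t hst x hx y hy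
      apply S.uniq _ (hq1 _ (abs_B hst hx hy)) _ (S.abs s t hst _ (hq1 x hx) _ (hq1 y hy))
      intro j hj
      rw [hq2 _ (abs_B hst hx hy) j hj]
      simp only [Pi.add_apply, Pi.smul_apply]
      rw [hq2 x hx j hj, hq2 y hy j hj])
  refine ⟨Λ, fun F hF => ?_⟩
  rw [hΛ F hF]
  exact ⟨hq1 F hF, hq2 F hF⟩

/-- The projection is the identity on `K`. -/
lemma proj_eq (S : Sys K N) {Λ : P Γ →ₗ[ℂ] P Γ}
    (hΛ : ∀ F ∈ B Γ, Λ F ∈ K ∧ ∀ j ∈ Jx N, Λ F j = F j) {F : P Γ} (hF : F ∈ K) : Λ F = F :=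
  S.uniq _ (hΛ F (S.sub hF)).1 _ hF (hΛ F (S.sub hF)).2

/-- The vanishing principle: a continuous linear map which kills a bounded lift of the
`*`-coordinate and all coordinate directions vanishes on `K`. -/
lemma vanish [Nontrivial Γ] (S : Sys K N) {Λ : P Γ →ₗ[ℂ] P Γ}
    (hΛ : ∀ F ∈ B Γ, Λ F ∈ K ∧ ∀ j ∈ Jx N, Λ F j = F j) (l : P Γ →ₗ[ℂ] E) (hl : Continuous l)
    (s : Γ) (hb : ∀ m, l (Λ (M s m)) = 0)
    (hone : ∀ α ∈ N, ∀ x, l (Λ (Y (.one α) x)) = 0)
    (htwo : ∀ α ∈ N, ∀ β ∈ N, α ≠ β → ∀ x, l (Λ (Y (.two α β) x)) = 0) :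
    ∀ G ∈ K, l G = 0 := by
  classical
  intro G hG
  have hGB := S.sub hG
  have hK' : IsCompact (K ∩ {H : P Γ | l H = 0}) :=
    S.compact.inter_right (isClosed_eq hl continuous_const)
  obtain ⟨H, ⟨hHK, hHl⟩, hHj⟩ := exists_agree hK' (Jx N) ((1 / 4 : ℂ) • G) (by
    intro I hI
    set m := G .star with hm
    have hmn : nsq m ≤ 1 := nsq_le_of_mem_B hGB _
    let F : P Γ := M s m + ∑ j ∈ I, Y j (G j - M s m j)
    have hFj : ∀ i, F i = if i ∈ I then G i else M s m i := by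
      intro i
      have h1 : (∑ j ∈ I, Y j (G j - M s m j)) i = if i ∈ I then G i - M s m i else 0 := by
        rw [Finset.sum_apply]
        simp only [Y_apply]
        rw [Finset.sum_ite_eq]
      show M s m i + (∑ j ∈ I, Y j (G j - M s m j)) i = _
      rw [h1]
      split_ifs <;> simp
    have hFB : (1 / 4 : ℂ) • F ∈ B Γ := by
      apply quarter_mem_B
      · intro j
        rw [hFj]
        split_ifs
        · exact nsq_le_of_mem_B hGB _
        · exact nsq_M_le s hmn j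
      · intro α
        rw [hFj]
        split_ifs
        · exact hGB.2 α
        · simp
    obtain ⟨h1, h2⟩ := hΛ _ hFB
    refine ⟨Λ ((1 / 4 : ℂ) • F), ⟨h1, ?_⟩, ?_⟩
    · simp only [Set.mem_ofPred_eq]
      rw [map_smul, map_smul]
      have : l (Λ F) = 0 := by
        show l (Λ (M s m + ∑ j ∈ I, Y j (G j - M s m j))) = 0
        rw [map_add, map_add, hb, zero_add, map_sum, map_sum]
        apply Finset.sum_eq_zero
        intro j hj
        have hjN := hI j hj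
        rcases j with _ | α | ⟨α, β⟩
        · simp [hm]
        · exact hone α hjN _
        · by_cases hαβ : α = β
          · subst hαβ
            rw [hGB.2 α, M_self]
            simp
          · exact htwo α hjN.1 β hjN.2 hαβ _
      rw [this, smul_zero]
    · intro j hj
      rw [h2 j (hI j hj), Pi.smul_apply, Pi.smul_apply, hFj, if_pos hj])
  have hG4 : (1 / 4 : ℂ) • G ∈ K := by
    have := S.abs (1 / 4) 0 (by norm_num) G hG G hG
    simpa using this
  have heq : H = (1 / 4 : ℂ) • G := S.uniq _ hHK _ hG4 hHj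
  rw [heq] at hHl
  simp only [Set.mem_ofPred_eq, map_smul] at hHl
  rcases smul_eq_zero.1 hHl with h | h
  · norm_num at h
  · exact h

end Sys

/-! ### Linear algebra in `E` -/

/-- first basis vector -/
def e1 : E := (1, 0)
/-- second basis vector -/
def e2 : E := (0, 1)
/-- a third unit vector -/
noncomputable def e3 : E := (3 / 5, 4 / 5)
/-- a fourth unit vector -/
noncomputable def e4 : E := (3 / 5, (4 / 5) * I)

lemma nsq_e1 : nsq e1 = 1 := by simp [nsq, e1]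
lemma nsq_e2 : nsq e2 = 1 := by simp [nsq, e2]
lemma nsq_e3 : nsq e3 = 1 := by
  simp only [nsq, e3, normSq_div, normSq_ofNat]; norm_num
lemma nsq_e4 : nsq e4 = 1 := by
  simp only [nsq, e4, normSq_div, normSq_ofNat, normSq_mul, normSq_I]; norm_num

@[simp] lemma cj_e1 : cj e1 = e1 := by simp [cj, e1]
@[simp] lemma cj_e2 : cj e2 = e2 := by simp [cj, e2]
@[simp] lemma cj_e3 : cj e3 = e3 := by
  simp only [cj, e3, map_div₀, map_ofNat]

lemma lin_ext {W : Type} [AddCommGroup W] [Module ℂ W] (f : E →ₗ[ℂ] W) (h1 : f e1 = 0)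
    (h2 : f e2 = 0) (x : E) : f x = 0 := by
  have hx : x = x.1 • e1 + x.2 • e2 := by
    ext <;> simp [e1, e2]
  rw [hx, map_add, map_smul, map_smul, h1, h2, smul_zero, smul_zero, add_zero]

/-- `u ∉ T · conj m` -/
def Tfree (u m : E) : Prop := ∀ w : ℂ, ‖w‖ = 1 → w • cj m ≠ u

lemma Tfree_neg {u m : E} (h : Tfree u m) : Tfree (-u) m := by
  intro w hw he
  refine h (-w) (by simpa using hw) ?_
  rw [neg_smul, he, neg_neg]

lemma Tfree_e1 {m : E} (h : m.2 ≠ 0) : Tfree e1 m := by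
  intro w hw he
  have h2 := congrArg Prod.snd he
  simp only [cj, e1, Prod.smul_mk, smul_eq_mul, mul_eq_zero] at h2
  rcases h2 with h2 | h2
  · rw [h2] at hw; simp at hw
  · exact h ((map_eq_zero _).1 h2)

lemma Tfree_e2 {m : E} (h : m.1 ≠ 0) : Tfree e2 m := by
  intro w hw he
  have h2 := congrArg Prod.fst he
  simp only [cj, e2, Prod.smul_mk, smul_eq_mul, mul_eq_zero] at h2
  rcases h2 with h2 | h2
  · rw [h2] at hw; simp at hw
  · exact h ((map_eq_zero _).1 h2)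

lemma Tfree_12 : Tfree e1 e2 := Tfree_e1 (by simp [e2])
lemma Tfree_21 : Tfree e2 e1 := Tfree_e2 (by simp [e1])
lemma Tfree_13 : Tfree e1 e3 := Tfree_e1 (by simp [e3])
lemma Tfree_23 : Tfree e2 e3 := Tfree_e2 (by simp [e3])
lemma Tfree_14 : Tfree e1 e4 := Tfree_e1 (by simp [e4])

/-- A vector in two of the lines `ℂ e1`, `ℂ e2`, `ℂ e3` is zero. -/
lemma zero_of_12 {x : E} (h1 : ∃ z : ℂ, x = z • e1) (h2 : ∃ z : ℂ, x = z • e2) : x = 0 := by
  obtain ⟨z, rfl⟩ := h1
  obtain ⟨y, hy⟩ := h2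
  have := congrArg Prod.fst hy
  simp only [e1, e2, Prod.smul_mk, smul_eq_mul, mul_one, mul_zero] at this
  simp [this]

lemma zero_of_13 {x : E} (h1 : ∃ z : ℂ, x = z • e1) (h2 : ∃ z : ℂ, x = z • e3) : x = 0 := by
  obtain ⟨z, rfl⟩ := h1
  obtain ⟨y, hy⟩ := h2
  have a1 := congrArg Prod.fst hy
  have a2 := congrArg Prod.snd hy
  simp only [e1, e3, Prod.smul_mk, smul_eq_mul, mul_one, mul_zero] at a1 a2
  have hy0 : y = 0 := by
    rcases mul_eq_zero.1 a2.symm with h | h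
    · exact h
    · norm_num at h
  rw [hy0, zero_mul] at a1
  simp [a1]

lemma zero_of_23 {x : E} (h1 : ∃ z : ℂ, x = z • e2) (h2 : ∃ z : ℂ, x = z • e3) : x = 0 := by
  obtain ⟨z, rfl⟩ := h1
  obtain ⟨y, hy⟩ := h2
  have a1 := congrArg Prod.fst hy
  have a2 := congrArg Prod.snd hy
  simp only [e2, e3, Prod.smul_mk, smul_eq_mul, mul_one, mul_zero] at a1 a2
  have hy0 : y = 0 := by
    rcases mul_eq_zero.1 a1.symm with h | h
    · exact h
    · norm_num at h
  rw [hy0, zero_mul] at a2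
  simp [a2]

/-- A complex-linear map with `f m ∈ ℂ conj m` for four unit vectors is zero. -/
lemma lin_zero (f : E →ₗ[ℂ] E) (h1 : ∃ z : ℂ, f e1 = z • cj e1) (h2 : ∃ z : ℂ, f e2 = z • cj e2)
    (h3 : ∃ z : ℂ, f e3 = z • cj e3) (h4 : ∃ z : ℂ, f e4 = z • cj e4) (x : E) : f x = 0 := by
  obtain ⟨a, ha⟩ := h1
  obtain ⟨b, hb⟩ := h2
  obtain ⟨c, hc⟩ := h3
  obtain ⟨d, hd⟩ := h4
  have e3' : e3 = (3 / 5 : ℂ) • e1 + (4 / 5 : ℂ) • e2 := by
    ext <;> simp [e1, e2, e3]
  have e4' : e4 = (3 / 5 : ℂ) • e1 + ((4 / 5) * I : ℂ) • e2 := by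
    ext <;> simp [e1, e2, e4]
  rw [e3', map_add, map_smul, map_smul, ha, hb, ← e3'] at hc
  rw [e4', map_add, map_smul, map_smul, ha, hb, ← e4'] at hd
  have c1 := congrArg Prod.fst hc
  have c2 := congrArg Prod.snd hc
  have d1 := congrArg Prod.fst hd
  have d2 := congrArg Prod.snd hd
  simp only [e1, e2, e3, e4, cj, Prod.smul_mk, smul_eq_mul, Prod.mk_add_mk, map_one, map_zero,
    mul_one, mul_zero, add_zero, zero_add, map_div₀, map_ofNat, map_mul, conj_I] at c1 c2 d1 d2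
  have hca : c = a := by linear_combination (-5 / 3 : ℂ) * c1
  have hcb : c = b := by linear_combination (-5 / 4 : ℂ) * c2
  have hda : d = a := by linear_combination (-5 / 3 : ℂ) * d1
  have hdb : d * I = - (b * I) := by linear_combination (5 / 4 : ℂ) * d2
  have hdb' : d = -b := by
    have hI : (I : ℂ) ≠ 0 := I_ne_zero
    apply mul_right_cancel₀ hI
    rw [hdb]; ring
  have ha0 : a = 0 := by
    have : a = -a := by
      calc a = d := hda.symm
        _ = -b := hdb'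
        _ = -a := by rw [← hcb, hca]
    have h2a : (2 : ℂ) * a = 0 := by linear_combination this
    simpa using h2a
  have hb0 : b = 0 := by rw [← hcb, hca, ha0]
  exact lin_ext f (by rw [ha, ha0, zero_smul]) (by rw [hb, hb0, zero_smul]) x

end Pool.Agent.Lib.MP_54c5a6_an
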