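import Pool.Agent.Lib.MP_54c5a6_an.Hull

/-!
# The four-fold gadget `U ⊆ E⁴`, `E = ℂ²`
-/

namespace Pool.Agent.Lib.MP_54c5a6_an

open Complex

/-- The two-dimensional Hilbert space (only the formula `nsq` is used, not the norm). -/
abbrev E : Type := ℂ × ℂ

/-- coordinatewise complex conjugation -/
def cj (x : E) : E := (starRingEnd ℂ x.1, starRingEnd ℂ x.2)

/-- the square of the Hilbert space norm -/
def nsq (x : E) : ℝ := normSq x.1 + normSq x.2

/-- the real inner product -/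
def ip (a x : E) : ℝ := a.1.re * x.1.re + a.1.im * x.1.im + a.2.re * x.2.re + a.2.im * x.2.im

@[simp] lemma cj_cj (x : E) : cj (cj x) = x := by simp [cj]

@[simp] lemma cj_zero : cj 0 = 0 := by simp [cj]

lemma cj_add (x y : E) : cj (x + y) = cj x + cj y := by simp [cj]

lemma cj_sub (x y : E) : cj (x - y) = cj x - cj y := by simp [cj]

lemma cj_neg (x : E) : cj (-x) = -cj x := by simp [cj]

lemma cj_smul (c : ℂ) (x : E) : cj (c • x) = starRingEnd ℂ c • cj x := by simp [cj]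

lemma cj_smul_real (c : ℝ) (x : E) : cj (c • x) = c • cj x := by
  simp only [cj, Prod.smul_mk, Prod.smul_fst, Prod.smul_snd, Complex.real_smul, map_mul,
    Complex.conj_ofReal]

lemma continuous_cj : Continuous cj :=
  (continuous_conj.comp continuous_fst).prodMk (continuous_conj.comp continuous_snd)

lemma nsq_cj (x : E) : nsq (cj x) = nsq x := by simp [cj, nsq]

lemma nsq_nonneg (x : E) : 0 ≤ nsq x := add_nonneg (normSq_nonneg _) (normSq_nonneg _)

@[simp] lemma nsq_zero : nsq 0 = 0 := by simp [nsq]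

lemma nsq_neg (x : E) : nsq (-x) = nsq x := by simp [nsq]

lemma nsq_smul (c : ℂ) (x : E) : nsq (c • x) = normSq c * nsq x := by
  simp [nsq, mul_add]

lemma nsq_smul_of_norm_one {c : ℂ} (hc : ‖c‖ = 1) (x : E) : nsq (c • x) = nsq x := by
  rw [nsq_smul, normSq_eq_norm_sq, hc]; ring

lemma continuous_nsq : Continuous nsq :=
  (continuous_normSq.comp continuous_fst).add (continuous_normSq.comp continuous_snd)

lemma eq_zero_of_nsq {x : E} (h : nsq x ≤ 0) : x = 0 := by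
  have h1 : normSq x.1 = 0 := by
    have := normSq_nonneg x.1
    have := normSq_nonneg x.2
    unfold nsq at h; linarith
  have h2 : normSq x.2 = 0 := by
    have := normSq_nonneg x.1
    have := normSq_nonneg x.2
    unfold nsq at h; linarith
  exact Prod.ext (normSq_eq_zero.1 h1) (normSq_eq_zero.1 h2)

lemma nsq_sub (x a : E) : nsq (x - a) = nsq x - 2 * ip a x + nsq a := by
  simp only [nsq, ip, normSq_apply, Prod.fst_sub, Prod.snd_sub, sub_re, sub_im]
  ring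

lemma ip_le {a x : E} (ha : nsq a = 1) (hx : nsq x ≤ 1) : ip a x ≤ 1 := by
  have h := nsq_nonneg (x - a)
  rw [nsq_sub] at h
  linarith

lemma eq_of_ip {a x : E} (ha : nsq a = 1) (hx : nsq x ≤ 1) (h : 1 ≤ ip a x) : x = a := by
  have h0 : nsq (x - a) ≤ 0 := by rw [nsq_sub]; linarith
  exact sub_eq_zero.1 (eq_zero_of_nsq h0)

lemma ip_self (a : E) : ip a a = nsq a := by
  simp only [nsq, ip, normSq_apply]; ring

/-- `ip a` as a real-linear map -/
def ipL (a : E) : E →ₗ[ℝ] ℝ where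
  toFun := ip a
  map_add' x y := by simp only [ip, Prod.fst_add, Prod.snd_add, add_re, add_im]; ring
  map_smul' c x := by
    simp only [ip, Prod.smul_fst, Prod.smul_snd, real_smul, mul_re, mul_im, ofReal_re, ofReal_im,
      RingHom.id_apply, smul_eq_mul]
    ring

@[simp] lemma ipL_apply (a x : E) : ipL a x = ip a x := rfl

lemma convex_nsq_le : Convex ℝ {x : E | nsq x ≤ 1} := by
  intro x hx y hy a b ha hb hab
  simp only [Set.mem_ofPred_eq] at hx hy ⊢
  have hb' : b = 1 - a := by linarith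
  have key : nsq (a • x + b • y) = a * nsq x + b * nsq y - a * b * nsq (x - y) := by
    subst hb'
    simp only [nsq, normSq_apply, Prod.fst_sub, Prod.snd_sub, sub_re, sub_im, Prod.fst_add,
      Prod.snd_add, Prod.smul_fst, Prod.smul_snd, add_re, add_im, real_smul, mul_re, mul_im,
      ofReal_re, ofReal_im]
    ring
  rw [key]
  have h1 : a * nsq x ≤ a * 1 := mul_le_mul_of_nonneg_left hx ha
  have h2 : b * nsq y ≤ b * 1 := mul_le_mul_of_nonneg_left hy hb
  have h3 : 0 ≤ a * b * nsq (x - y) := mul_nonneg (mul_nonneg ha hb) (nsq_nonneg _)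
  linarith

lemma isCompact_nsq_le : IsCompact {x : E | nsq x ≤ 1} := by
  apply Metric.isCompact_of_isClosed_isBounded
  · exact isClosed_le continuous_nsq continuous_const
  · rw [Metric.isBounded_iff_subset_closedBall 0]
    refine ⟨1, fun x hx => ?_⟩
    simp only [Set.mem_ofPred_eq] at hx
    rw [mem_closedBall_zero_iff, Prod.norm_def]
    have h1 := normSq_nonneg x.1
    have h2 := normSq_nonneg x.2
    unfold nsq at hx
    apply max_le
    · have : ‖x.1‖ ^ 2 ≤ 1 := by rw [← normSq_eq_norm_sq]; linarith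
      exact (sq_le_one_iff₀ (norm_nonneg _)).1 this
    · have : ‖x.2‖ ^ 2 ≤ 1 := by rw [← normSq_eq_norm_sq]; linarith
      exact (sq_le_one_iff₀ (norm_nonneg _)).1 this

/-- The four-fold product; a quadruple is `(F_{αβ}, F_α, F_β, F_*)`. -/
abbrev Q4 : Type := E × E × E × E

/-- left generators -/
def genL (p : E × E × ℂ) : Q4 := (p.1, p.2.1, p.2.2 • cj p.1, p.1)

/-- right generators -/
def genR (p : E × E × ℂ) : Q4 := (p.2.2 • cj p.2.1, p.2.2 • cj p.1, p.2.1, p.1)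

/-- parameters -/
def par : Set (E × E × ℂ) := {x : E | nsq x ≤ 1} ×ˢ ({x : E | nsq x ≤ 1} ×ˢ Metric.sphere (0 : ℂ) 1)

/-- generators -/
def Gen : Set Q4 := genL '' par ∪ genR '' par

lemma isCompact_Gen : IsCompact Gen := by
  have hp : IsCompact par := isCompact_nsq_le.prod (isCompact_nsq_le.prod (isCompact_sphere 0 1))
  have hL : Continuous genL := by
    unfold genL
    have := continuous_cj
    fun_prop
  have hR : Continuous genR := by
    unfold genR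
    have := continuous_cj
    fun_prop
  exact (hp.image hL).union (hp.image hR)

/-- The gadget. -/
def U : Set Q4 := convexHull ℝ Gen

lemma isCompact_U : IsCompact U := isCompact_convexHull_of_isCompact isCompact_Gen

lemma convex_U : Convex ℝ U := convex_convexHull ℝ Gen

lemma L_mem {m u : E} {w : ℂ} (hm : nsq m ≤ 1) (hu : nsq u ≤ 1) (hw : ‖w‖ = 1) :
    ((m, u, w • cj m, m) : Q4) ∈ U :=
  subset_convexHull ℝ Gen (Or.inl ⟨(m, u, w), ⟨hm, hu, by simpa using hw⟩, rfl⟩)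

lemma R_mem {m v : E} {w : ℂ} (hm : nsq m ≤ 1) (hv : nsq v ≤ 1) (hw : ‖w‖ = 1) :
    ((w • cj v, w • cj m, v, m) : Q4) ∈ U :=
  subset_convexHull ℝ Gen (Or.inr ⟨(m, v, w), ⟨hm, hv, by simpa using hw⟩, rfl⟩)

lemma zero_mem_U : (0 : Q4) ∈ U := by
  have h : ((0, 0, 0, 0) : Q4) ∈ U := by
    simpa using L_mem (m := 0) (u := 0) (w := 1) (by simp) (by simp) (by simp)
  exact h

lemma circled_U {c : ℂ} (hc : ‖c‖ = 1) {x : Q4} (hx : x ∈ U) : c • x ∈ U := by
  have hconv : Convex ℝ {x : Q4 | c • x ∈ U} := by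
    intro x hx y hy a b ha hb hab
    have h := convex_U hx hy ha hb hab
    simp only [Set.mem_ofPred_eq]
    rw [smul_add, smul_comm c a x, smul_comm c b y]
    exact h
  refine convexHull_min (t := {x : Q4 | c • x ∈ U}) ?_ hconv hx
  have hcc : c * starRingEnd ℂ c = 1 := by rw [mul_conj, normSq_eq_norm_sq, hc]; norm_num
  rintro _ (⟨⟨m, u, w⟩, ⟨hm, hu, hw⟩, rfl⟩ | ⟨⟨m, v, w⟩, ⟨hm, hv, hw⟩, rfl⟩)
  · simp only [Set.mem_ofPred_eq] at hm hu ⊢
    have hw' : ‖w‖ = 1 := by simpa using hw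
    have h := L_mem (m := c • m) (u := c • u) (w := c * c * w)
      (by rwa [nsq_smul_of_norm_one hc]) (by rwa [nsq_smul_of_norm_one hc]) (by simp [hc, hw'])
    have e : c • genL (m, u, w) = (c • m, c • u, (c * c * w) • cj (c • m), c • m) := by
      simp only [genL, Prod.smul_mk]
      congr 3
      rw [cj_smul, smul_smul, smul_smul]
      congr 1
      linear_combination (-(c * w)) * hcc
    rw [e]
    exact h
  · simp only [Set.mem_ofPred_eq] at hm hv ⊢
    have hw' : ‖w‖ = 1 := by simpa using hw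
    have h := R_mem (m := c • m) (v := c • v) (w := c * c * w)
      (by rwa [nsq_smul_of_norm_one hc]) (by rwa [nsq_smul_of_norm_one hc]) (by simp [hc, hw'])
    have e : c • genR (m, v, w) =
        ((c * c * w) • cj (c • v), (c * c * w) • cj (c • m), c • v, c • m) := by
      simp only [genR, Prod.smul_mk]
      have e1 : ∀ y : E, (c * c * w) • cj (c • y) = c • w • cj y := by
        intro y
        rw [cj_smul, smul_smul, smul_smul]
        congr 1
        linear_combination (c * w) * hcc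
      rw [e1, e1]
    rw [e]
    exact h

/-- `U` is absolutely convex. -/
lemma abs_U {s t : ℂ} (hst : ‖s‖ + ‖t‖ ≤ 1) {x y : Q4} (hx : x ∈ U) (hy : y ∈ U) :
    s • x + t • y ∈ U := by
  have key : ∀ (s : ℂ) {x : Q4}, x ∈ U → ∃ x' ∈ U, s • x = ‖s‖ • x' := by
    intro s x hx
    by_cases hs : s = 0
    · exact ⟨0, zero_mem_U, by simp [hs]⟩
    · have hs' : (‖s‖ : ℂ) ≠ 0 := by simpa using hs
      refine ⟨(s / ‖s‖) • x, circled_U (by simp [hs]) hx, ?_⟩
      rw [show (‖s‖ : ℝ) • ((s / ‖s‖) • x) = ((‖s‖ : ℂ)) • ((s / ‖s‖) • x) from rfl, smul_smul,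
        mul_div_cancel₀ _ hs']
  obtain ⟨x', hx', ex⟩ := key s hx
  obtain ⟨y', hy', ey⟩ := key t hy
  rw [ex, ey]
  have h := convex_U.sum_mem (t := Finset.univ) (w := ![‖s‖, ‖t‖, 1 - ‖s‖ - ‖t‖])
    (z := ![x', y', 0]) ?_ ?_ ?_
  · simpa [Fin.sum_univ_three] using h
  · intro i _
    fin_cases i
    · simp
    · simp
    · simp; linarith
  · simp [Fin.sum_univ_three]
  · intro i _
    fin_cases i
    · simpa using hx'
    · simpa using hy'
    · simpa using zero_mem_U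

lemma nsq_le_of_mem_U {q : Q4} (hq : q ∈ U) :
    nsq q.1 ≤ 1 ∧ nsq q.2.1 ≤ 1 ∧ nsq q.2.2.1 ≤ 1 ∧ nsq q.2.2.2 ≤ 1 := by
  have hconv : Convex ℝ {q : Q4 | nsq q.1 ≤ 1 ∧ nsq q.2.1 ≤ 1 ∧ nsq q.2.2.1 ≤ 1 ∧
      nsq q.2.2.2 ≤ 1} := by
    rintro x ⟨h1, h2, h3, h4⟩ y ⟨k1, k2, k3, k4⟩ a b ha hb hab
    exact ⟨convex_nsq_le h1 k1 ha hb hab, convex_nsq_le h2 k2 ha hb hab,
      convex_nsq_le h3 k3 ha hb hab, convex_nsq_le h4 k4 ha hb hab⟩
  refine convexHull_min ?_ hconv hq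
  rintro _ (⟨⟨m, u, w⟩, ⟨hm, hu, hw⟩, rfl⟩ | ⟨⟨m, v, w⟩, ⟨hm, hv, hw⟩, rfl⟩)
  · have hw' : ‖w‖ = 1 := by simpa using hw
    exact ⟨hm, hu, by simpa [genL, nsq_smul_of_norm_one hw', nsq_cj] using hm, hm⟩
  · have hw' : ‖w‖ = 1 := by simpa using hw
    exact ⟨by simpa [genR, nsq_smul_of_norm_one hw', nsq_cj] using hv,
      by simpa [genR, nsq_smul_of_norm_one hw', nsq_cj] using hm, hv, hm⟩

/-! ### Members of `U` -/

lemma half_mem {x y z : Q4} (hx : x ∈ U) (hy : y ∈ U) (h : z = (1 / 2 : ℝ) • x + (1 / 2 : ℝ) • y) :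
    z ∈ U := by
  rw [h]
  exact convex_U hx hy (by norm_num) (by norm_num) (by norm_num)

lemma mem_mu0m {m u : E} (hm : nsq m ≤ 1) (hu : nsq u ≤ 1) : ((m, u, 0, m) : Q4) ∈ U := by
  refine half_mem (L_mem (w := 1) hm hu (by simp)) (L_mem (w := -1) hm hu (by simp)) ?_
  ext <;> simp <;> ring

lemma mem_00vm {m v : E} (hm : nsq m ≤ 1) (hv : nsq v ≤ 1) : ((0, 0, v, m) : Q4) ∈ U := by
  refine half_mem (R_mem (w := 1) hm hv (by simp)) (R_mem (w := -1) hm hv (by simp)) ?_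
  ext <;> simp <;> ring

lemma mem_t00m {m t : E} (hm : nsq m ≤ 1) (ht : nsq t ≤ 1) : ((t, 0, 0, m) : Q4) ∈ U := by
  refine half_mem (R_mem (w := 1) (v := cj t) hm (by rwa [nsq_cj]) (by simp))
    (R_mem (w := -1) (v := -cj t) hm (by rwa [nsq_neg, nsq_cj]) (by simp)) ?_
  ext <;> simp [cj_neg] <;> ring

lemma mem_R1 {m u : E} (hm : nsq m ≤ 1) (hu : nsq u ≤ 1) : ((cj u, cj m, u, m) : Q4) ∈ U := by
  simpa using R_mem (w := 1) hm hu (by simp)

lemma mem_L1 {m u : E} (hm : nsq m ≤ 1) (hu : nsq u ≤ 1) : ((m, u, cj m, m) : Q4) ∈ U := by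
  simpa using L_mem (w := 1) hm hu (by simp)

/-- Small multiples of arbitrary quadruples are in `U`. -/
lemma quarter_mem {t u v m : E} (ht : nsq t ≤ 1) (hu : nsq u ≤ 1) (hv : nsq v ≤ 1)
    (hm : nsq m ≤ 1) : ((1 / 4 : ℂ) • ((t, u, v, m) : Q4)) ∈ U := by
  have h1 : ((t, 0, 0, 0) : Q4) ∈ U := mem_t00m (m := 0) (by simp) ht
  have h2 : ((0, u, 0, 0) : Q4) ∈ U := mem_mu0m (m := 0) (by simp) hu
  have h3 : ((0, 0, v, 0) : Q4) ∈ U := mem_00vm (m := 0) (by simp) hv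
  have h4 : ((0, 0, 0, m) : Q4) ∈ U := mem_00vm (v := 0) hm (by simp)
  have h := convex_U.sum_mem (t := Finset.univ) (w := ![(1 / 4 : ℝ), 1 / 4, 1 / 4, 1 / 4])
    (z := ![((t, 0, 0, 0) : Q4), (0, u, 0, 0), (0, 0, v, 0), (0, 0, 0, m)]) ?_ ?_ ?_
  · have e : ((1 / 4 : ℂ) • ((t, u, v, m) : Q4)) =
      ∑ i : Fin 4, (![(1 / 4 : ℝ), 1 / 4, 1 / 4, 1 / 4] i) •
        (![((t, 0, 0, 0) : Q4), (0, u, 0, 0), (0, 0, v, 0), (0, 0, 0, m)] i) := by
      rw [Fin.sum_univ_four]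
      ext <;> simp
    rw [e]
    exact h
  · intro i _
    fin_cases i <;> norm_num
  · simp [Fin.sum_univ_four]; norm_num
  · intro i _
    fin_cases i
    · simpa using h1
    · simpa using h2
    · simpa using h3
    · simpa using h4

/-! ### Rigidity -/

/-- the functional `q ↦ Re⟨q_α, a⟩ + Re⟨q_*, m⟩` -/
noncomputable def fA (a m : E) : Q4 →ₗ[ℝ] ℝ :=
  (ipL a).comp ((LinearMap.fst ℝ E (E × E)).comp (LinearMap.snd ℝ E (E × E × E))) +
    (ipL m).comp ((LinearMap.snd ℝ E E).comp ((LinearMap.snd ℝ E (E × E)).comp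
      (LinearMap.snd ℝ E (E × E × E))))

/-- the functional `q ↦ Re⟨q_β, a⟩ + Re⟨q_*, m⟩` -/
noncomputable def fB (a m : E) : Q4 →ₗ[ℝ] ℝ :=
  (ipL a).comp ((LinearMap.fst ℝ E E).comp ((LinearMap.snd ℝ E (E × E)).comp
      (LinearMap.snd ℝ E (E × E × E)))) +
    (ipL m).comp ((LinearMap.snd ℝ E E).comp ((LinearMap.snd ℝ E (E × E)).comp
      (LinearMap.snd ℝ E (E × E × E))))

lemma fA_apply (a m : E) (q : Q4) : fA a m q = ip a q.2.1 + ip m q.2.2.2 := rfl

lemma fB_apply (a m : E) (q : Q4) : fB a m q = ip a q.2.2.1 + ip m q.2.2.2 := rfl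

lemma faceA {a m : E} (ha : nsq a = 1) (hm : nsq m = 1) {T : Set Q4} (hT : Convex ℝ T)
    (hL : ∀ w : ℂ, ‖w‖ = 1 → ((m, a, w • cj m, m) : Q4) ∈ T)
    (hR : ∀ (v : E) (w : ℂ), nsq v ≤ 1 → ‖w‖ = 1 → w • cj m = a →
      ((w • cj v, w • cj m, v, m) : Q4) ∈ T)
    {t v : E} (h : ((t, a, v, m) : Q4) ∈ U) : ((t, a, v, m) : Q4) ∈ T := by
  refine face_convexHull (s := Gen) (fA a m) 2 ?_ hT ?_ h (by
    rw [fA_apply]; simp only [ip_self]; rw [ha, hm]; norm_num)
  · intro g hg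
    have hg' := nsq_le_of_mem_U (subset_convexHull ℝ Gen hg)
    rw [fA_apply]
    have := ip_le ha hg'.2.1
    have := ip_le hm hg'.2.2.2
    linarith
  · intro g hg hg2
    have hg' := nsq_le_of_mem_U (subset_convexHull ℝ Gen hg)
    rw [fA_apply] at hg2
    have h1 := ip_le ha hg'.2.1
    have h2 := ip_le hm hg'.2.2.2
    have e1 := eq_of_ip ha hg'.2.1 (by linarith)
    have e2 := eq_of_ip hm hg'.2.2.2 (by linarith)
    rcases hg with ⟨⟨m', u, w⟩, ⟨hm', hu, hw⟩, rfl⟩ | ⟨⟨m', v, w⟩, ⟨hm', hv, hw⟩, rfl⟩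
    · have hw' : ‖w‖ = 1 := by simpa using hw
      simp only [genL] at e1 e2 ⊢
      subst e1 e2
      exact hL w hw'
    · have hw' : ‖w‖ = 1 := by simpa using hw
      simp only [genR] at e1 e2 ⊢
      subst e2
      exact hR v w hv hw' e1

lemma faceB {a m : E} (ha : nsq a = 1) (hm : nsq m = 1) {T : Set Q4} (hT : Convex ℝ T)
    (hL : ∀ (u : E) (w : ℂ), nsq u ≤ 1 → ‖w‖ = 1 → w • cj m = a →
      ((m, u, w • cj m, m) : Q4) ∈ T)
    (hR : ∀ w : ℂ, ‖w‖ = 1 → ((w • cj a, w • cj m, a, m) : Q4) ∈ T)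
    {t u : E} (h : ((t, u, a, m) : Q4) ∈ U) : ((t, u, a, m) : Q4) ∈ T := by
  refine face_convexHull (s := Gen) (fB a m) 2 ?_ hT ?_ h (by
    rw [fB_apply]; simp only [ip_self]; rw [ha, hm]; norm_num)
  · intro g hg
    have hg' := nsq_le_of_mem_U (subset_convexHull ℝ Gen hg)
    rw [fB_apply]
    have := ip_le ha hg'.2.2.1
    have := ip_le hm hg'.2.2.2
    linarith
  · intro g hg hg2
    have hg' := nsq_le_of_mem_U (subset_convexHull ℝ Gen hg)
    rw [fB_apply] at hg2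
    have h1 := ip_le ha hg'.2.2.1
    have h2 := ip_le hm hg'.2.2.2
    have e1 := eq_of_ip ha hg'.2.2.1 (by linarith)
    have e2 := eq_of_ip hm hg'.2.2.2 (by linarith)
    rcases hg with ⟨⟨m', u, w⟩, ⟨hm', hu, hw⟩, rfl⟩ | ⟨⟨m', v, w⟩, ⟨hm', hv, hw⟩, rfl⟩
    · have hw' : ‖w‖ = 1 := by simpa using hw
      simp only [genL] at e1 e2 ⊢
      subst e2
      exact hL u w hu hw' e1
    · have hw' : ‖w‖ = 1 := by simpa using hw
      simp only [genR] at e1 e2 ⊢
      subst e1 e2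
      exact hR w hw'

/-- R1 -/
lemma rigid1 {t u v m : E} (hu : nsq u = 1) (hm : nsq m = 1)
    (hne : ∀ w : ℂ, ‖w‖ = 1 → w • cj m ≠ u) (h : ((t, u, v, m) : Q4) ∈ U) :
    t = m ∧ ∃ z : ℂ, v = z • cj m := by
  have hT : Convex ℝ {q : Q4 | q.1 = m ∧ ∃ z : ℂ, q.2.2.1 = z • cj m} := by
    rintro x ⟨h1, z, h2⟩ y ⟨k1, z', k2⟩ a b ha hb hab
    refine ⟨?_, a * z + b * z', ?_⟩
    · simp only [Prod.fst_add, Prod.smul_fst, h1, k1]
      rw [← add_smul, hab, one_smul]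
    · simp only [Prod.fst_add, Prod.smul_fst, Prod.snd_add, Prod.smul_snd, h2, k2, add_smul,
        mul_smul]
      rfl
  have := faceA hu hm hT (fun w _ => ⟨rfl, w, rfl⟩) (fun v w _ hw he => absurd he (hne w hw)) h
  exact this

/-- R2 -/
lemma rigid2 {t u v m : E} (hv : nsq v = 1) (hm : nsq m = 1)
    (hne : ∀ w : ℂ, ‖w‖ = 1 → w • cj m ≠ v) (h : ((t, u, v, m) : Q4) ∈ U) :
    ∃ z : ℂ, t = z • cj v ∧ u = z • cj m := by
  have hT : Convex ℝ {q : Q4 | ∃ z : ℂ, q.1 = z • cj v ∧ q.2.1 = z • cj m} := by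
    rintro x ⟨z, h1, h2⟩ y ⟨z', k1, k2⟩ a b ha hb hab
    refine ⟨a * z + b * z', ?_, ?_⟩
    · simp only [Prod.fst_add, Prod.smul_fst, h1, k1, add_smul, mul_smul]
      rfl
    · simp only [Prod.fst_add, Prod.smul_fst, Prod.snd_add, Prod.smul_snd, h2, k2, add_smul,
        mul_smul]
      rfl
  exact faceB hv hm hT (fun u w _ hw he => absurd he (hne w hw)) (fun w _ => ⟨w, rfl, rfl⟩) h

lemma eq_one_of_smul_eq {m : E} (hm : nsq m = 1) {w : ℂ} (h : w • m = m) : w = 1 := by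
  have h0 : (w - 1) • m = 0 := by rw [sub_smul, h, one_smul, sub_self]
  rcases smul_eq_zero.1 h0 with h1 | h1
  · exact sub_eq_zero.1 h1
  · rw [h1] at hm; simp at hm

/-- R3 -/
lemma rigid3 {t m : E} (hm : nsq m = 1) (h : ((t, cj m, 0, m) : Q4) ∈ U) :
    ∃ z : ℂ, t = z • m := by
  have hT : Convex ℝ {q : Q4 | ∃ z : ℂ, q.1 - cj q.2.2.1 = z • m} := by
    rintro x ⟨z, h1⟩ y ⟨z', k1⟩ a b ha hb hab
    refine ⟨a * z + b * z', ?_⟩
    have : (a • x + b • y).1 - cj (a • x + b • y).2.2.1 =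
      a • (x.1 - cj x.2.2.1) + b • (y.1 - cj y.2.2.1) := by
      simp only [Prod.fst_add, Prod.smul_fst, Prod.snd_add, Prod.smul_snd, cj_add, cj_smul_real,
        smul_sub]
      abel
    rw [this, h1, k1, add_smul, mul_smul, mul_smul]
    rfl
  have hm' : nsq (cj m) = 1 := by rw [nsq_cj, hm]
  have := faceA hm' hm hT (fun w _ => ⟨1 - starRingEnd ℂ w, by
      simp only [cj_smul, cj_cj, sub_smul, one_smul]⟩) (fun v w _ hw he => ?_) h
  · obtain ⟨z, hz⟩ := this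
    exact ⟨z, by simpa using hz⟩
  · have hw1 := eq_one_of_smul_eq hm' he
    exact ⟨0, by simp [hw1]⟩

/-- R4 -/
lemma rigid4 {t u m : E} (hm : nsq m = 1) (h : ((t, u, cj m, m) : Q4) ∈ U) :
    ∃ z : ℂ, t = z • m := by
  have hT : Convex ℝ {q : Q4 | ∃ z : ℂ, q.1 = z • m} := by
    rintro x ⟨z, h1⟩ y ⟨z', k1⟩ a b ha hb hab
    refine ⟨a * z + b * z', ?_⟩
    simp only [Prod.fst_add, Prod.smul_fst, h1, k1, add_smul, mul_smul]
    rfl
  have hm' : nsq (cj m) = 1 := by rw [nsq_cj, hm]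
  exact faceB hm' hm hT (fun u w _ hw he => ⟨1, by simp⟩)
    (fun w _ => ⟨w, by simp only [cj_cj]⟩) h

end Pool.Agent.Lib.MP_54c5a6_an
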