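import Mathlib

/-!
# Compactness of the convex hull of a compact set, and faces of convex hulls
-/

namespace Pool.Agent.Lib.MP_54c5a6_an

open Finset

/-- In a finite-dimensional space the convex hull of a compact set is compact. -/
theorem isCompact_convexHull_of_isCompact {V : Type} [AddCommGroup V] [Module ℝ V]
    [TopologicalSpace V] [ContinuousAdd V] [ContinuousSMul ℝ V] [FiniteDimensional ℝ V]
    {s : Set V} (hs : IsCompact s) : IsCompact (convexHull ℝ s) := by
  classical
  rcases s.eq_empty_or_nonempty with rfl | ⟨x₀, hx₀⟩
  · simp
  let n := Module.finrank ℝ V + 1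
  let Φ : (Fin n → ℝ) × (Fin n → V) → V := fun p => ∑ i, p.1 i • p.2 i
  have hΦ : Continuous Φ := by
    apply continuous_finsetSum
    intro i _
    exact ((continuous_apply i).comp continuous_fst).smul ((continuous_apply i).comp continuous_snd)
  have hK : IsCompact ((stdSimplex ℝ (Fin n)) ×ˢ (Set.univ.pi fun _ : Fin n => s)) :=
    (isCompact_stdSimplex ℝ (Fin n)).prod (isCompact_univ_pi fun _ => hs)
  have himg : convexHull ℝ s = Φ '' ((stdSimplex ℝ (Fin n)) ×ˢ (Set.univ.pi fun _ : Fin n => s)) := by
    apply Set.Subset.antisymm
    · intro x hx
      obtain ⟨ι, hι, z, w, hz, hind, hw, hw1, hwx⟩ := eq_pos_convex_span_of_mem_convexHull hx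
      have hcard : Fintype.card ι ≤ n := hind.card_le_finrank_succ.trans (by
        have := Submodule.finrank_le (vectorSpan ℝ (Set.range z))
        omega)
      obtain ⟨f⟩ : Nonempty (ι ↪ Fin n) :=
        Function.Embedding.nonempty_of_card_le (by simpa using hcard)
      refine ⟨(fun j => ∑ i, if f i = j then w i else 0,
        fun j => if h : ∃ i, f i = j then z h.choose else x₀), ⟨⟨?_, ?_⟩, ?_⟩, ?_⟩
      · intro j
        apply Finset.sum_nonneg
        intro i _
        split_ifs
        · exact (hw i).le
        · exact le_rfl
      · rw [Finset.sum_comm]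
        simp [hw1]
      · intro j _
        simp only
        split_ifs with h
        · exact hz ⟨_, rfl⟩
        · exact hx₀
      · simp only [Φ]
        rw [← hwx]
        have h1 : ∀ j : Fin n, (∑ i, if f i = j then w i else 0) •
            (if h : ∃ i, f i = j then z h.choose else x₀) =
            ∑ i, if f i = j then w i • z i else 0 := by
          intro j
          rw [Finset.sum_smul]
          apply Finset.sum_congr rfl
          intro i _
          split_ifs with h1 h2 h2
          · have : h2.choose = i := f.injective (h2.choose_spec.trans h1.symm)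
            rw [this]
          · exact absurd ⟨i, h1⟩ h2
          · simp
          · simp
        rw [Finset.sum_congr rfl (fun j _ => h1 j), Finset.sum_comm]
        simp
    · rintro _ ⟨p, ⟨hp1, hp2⟩, rfl⟩
      exact (convex_convexHull ℝ s).sum_mem (fun i _ => hp1.1 i) hp1.2
        (fun i _ => subset_convexHull ℝ s (hp2 i trivial))
  rw [himg]
  exact hK.image hΦ

/-- Points of a convex hull at which a linear functional attains its maximal value lie in every
convex set containing the generating points where the value is attained. -/
theorem face_convexHull {V : Type} [AddCommGroup V] [Module ℝ V] {s T : Set V} (f : V →ₗ[ℝ] ℝ)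
    (c : ℝ) (hf : ∀ g ∈ s, f g ≤ c) (hT : Convex ℝ T) (hsT : ∀ g ∈ s, f g = c → g ∈ T) {x : V}
    (hx : x ∈ convexHull ℝ s) (hxc : f x = c) : x ∈ T := by
  have hconv : Convex ℝ {y : V | f y ≤ c ∧ (f y = c → y ∈ T)} := by
    rintro y ⟨hy1, hy2⟩ z ⟨hz1, hz2⟩ a b ha hb hab
    have hfa : f (a • y + b • z) = a * f y + b * f z := by simp
    have hb' : b = 1 - a := by linarith
    have e1 : a * f y ≤ a * c := mul_le_mul_of_nonneg_left hy1 ha
    have e2 : b * f z ≤ b * c := mul_le_mul_of_nonneg_left hz1 hb
    have e3 : a * c + b * c = c := by rw [← add_mul, hab, one_mul]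
    refine ⟨?_, ?_⟩
    · rw [hfa]
      linarith
    · intro h
      rw [hfa] at h
      rcases ha.eq_or_lt with ha0 | ha0
      · have hb1 : b = 1 := by linarith
        rw [← ha0, hb1] at h ⊢
        rw [zero_smul, zero_add, one_smul]
        exact hz2 (by linarith)
      · rcases hb.eq_or_lt with hb0 | hb0
        · have ha1 : a = 1 := by linarith
          rw [← hb0, ha1] at h ⊢
          rw [zero_smul, add_zero, one_smul]
          exact hy2 (by linarith)
        · have h1 : f y = c := by
            apply le_antisymm hy1
            by_contra hlt
            push Not at hlt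
            have := mul_lt_mul_of_pos_left hlt ha0
            linarith
          have h2 : f z = c := by
            apply le_antisymm hz1
            by_contra hlt
            push Not at hlt
            have := mul_lt_mul_of_pos_left hlt hb0
            linarith
          exact hT (hy2 h1) (hz2 h2) ha hb hab
  have h := convexHull_min (t := {y : V | f y ≤ c ∧ (f y = c → y ∈ T)})
    (fun g hg => ⟨hf g hg, hsT g hg⟩) hconv hx
  exact h.2 hxc

end Pool.Agent.Lib.MP_54c5a6_an
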