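import Pool.Agent.Lib.MP_54c5a6_an.Predual

/-!
# `B` has a convex symmetric dense Σ-subset
-/

namespace Pool.Agent.Lib.MP_54c5a6_an

open Complex Filter Topology

variable {Γ : Type}

open Classical in
/-- the real-linear change of coordinates -/
noncomputable def Df (F : P Γ) : P Γ
  | .star => F .star
  | .one α => F (.one α) - cj (F .star)
  | .two α β => if α = β then F (.two α β) else F (.two α β) - cj (F (.one β))

/-- real coordinates -/
def rc (k : Fin 4) (x : E) : ℝ := ![x.1.re, x.1.im, x.2.re, x.2.im] k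

lemma rc_zero (k : Fin 4) : rc k 0 = 0 := by
  fin_cases k <;> simp [rc]

lemma rc_add (k : Fin 4) (x y : E) : rc k (x + y) = rc k x + rc k y := by
  fin_cases k <;> simp [rc]

lemma rc_smul (k : Fin 4) (c : ℝ) (x : E) : rc k ((c : ℂ) • x) = c * rc k x := by
  fin_cases k <;> simp [rc]

lemma rc_ext {x y : E} (h : ∀ k, rc k x = rc k y) : x = y := by
  have h0 := h 0
  have h1 := h 1
  have h2 := h 2
  have h3 := h 3
  simp only [rc] at h0 h1 h2 h3
  exact Prod.ext (Complex.ext h0 h1) (Complex.ext h2 h3)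

lemma continuous_rc (k : Fin 4) : Continuous (rc k) := by
  fin_cases k
  · exact continuous_re.comp continuous_fst
  · exact continuous_im.comp continuous_fst
  · exact continuous_re.comp continuous_snd
  · exact continuous_im.comp continuous_snd

/-- the embedding `h_S` -/
noncomputable def hS (F : P Γ) : Ix Γ × Fin 4 → ℝ := fun p => rc p.2 (Df F p.1)

lemma Df_comb (s t : ℝ) (F G : P Γ) :
    Df ((s : ℂ) • F + (t : ℂ) • G) = (s : ℂ) • Df F + (t : ℂ) • Df G := by
  funext j
  rcases j with _ | α | ⟨α, β⟩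
  · rfl
  · simp only [Df, Pi.add_apply, Pi.smul_apply, cj_add, cj_smul, conj_ofReal, smul_sub]
    abel
  · simp only [Df, Pi.add_apply, Pi.smul_apply, cj_add, cj_smul, conj_ofReal]
    split_ifs
    · rfl
    · simp only [smul_sub]
      abel

lemma hS_comb (s t : ℝ) (F G : P Γ) (p : Ix Γ × Fin 4) :
    hS ((s : ℂ) • F + (t : ℂ) • G) p = s * hS F p + t * hS G p := by
  simp only [hS, Df_comb, Pi.add_apply, Pi.smul_apply, rc_add, rc_smul]

lemma continuous_Df : Continuous (Df (Γ := Γ)) := by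
  apply continuous_pi
  intro j
  rcases j with _ | α | ⟨α, β⟩
  · exact continuous_apply _
  · exact (continuous_apply _).sub (continuous_cj.comp (continuous_apply _))
  · by_cases h : α = β
    · simp only [Df, h, if_true]
      exact continuous_apply _
    · simp only [Df, h, if_false]
      exact (continuous_apply _).sub (continuous_cj.comp (continuous_apply _))

lemma continuous_hS : Continuous (hS (Γ := Γ)) :=
  continuous_pi fun p => (continuous_rc p.2).comp ((continuous_apply p.1).comp continuous_Df)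

lemma hS_injective : Function.Injective (hS (Γ := Γ)) := by
  intro F G h
  have hD : Df F = Df G := by
    funext j
    exact rc_ext fun k => congrFun h (j, k)
  have h0 : F .star = G .star := congrFun hD .star
  have h1 : ∀ α, F (.one α) = G (.one α) := by
    intro α
    have := congrFun hD (.one α)
    simp only [Df, h0] at this
    exact sub_left_injective this
  funext j
  rcases j with _ | α | ⟨α, β⟩
  · exact h0
  · exact h1 α
  · have := congrFun hD (.two α β)
    by_cases h : α = β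
    · simpa only [Df, h, if_true] using this
    · simp only [Df, h, if_false, h1] at this
      exact sub_left_injective this

open Classical in
/-- the finite modification of `F` -/
noncomputable def fI (I : Finset Γ) (F : P Γ) : P Γ
  | .star => F .star
  | .one γ => if γ ∈ I then F (.one γ) else cj (F .star)
  | .two α β => if α = β then 0 else if β ∈ I then (if α ∈ I then F (.two α β) else cj (F (.one β)))
      else F .star

lemma fI_mem [Nontrivial Γ] (I : Finset Γ) {F : P Γ} (hF : F ∈ B Γ) : fI I F ∈ B Γ := by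
  have hn := nsq_le_of_mem_B hF
  refine ⟨fun α β hαβ => ?_, fun α => by simp [fI]⟩
  by_cases hβ : β ∈ I
  · by_cases hα : α ∈ I
    · have : quad (fI I F) α β = quad F α β := by
        simp [quad, fI, hαβ, hα, hβ]
      rw [this]
      exact hF.1 α β hαβ
    · have : quad (fI I F) α β = (cj (F (.one β)), cj (F .star), F (.one β), F .star) := by
        simp [quad, fI, hαβ, hα, hβ]
      rw [this]
      exact mem_R1 (hn _) (hn _)
  · have : quad (fI I F) α β = (F .star, fI I F (.one α), cj (F .star), F .star) := by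
      simp [quad, fI, hαβ, hβ]
    rw [this]
    refine mem_L1 (hn _) ?_
    by_cases hα : α ∈ I
    · simp only [fI, hα, if_true]
      exact hn _
    · simp only [fI, hα, if_false, nsq_cj]
      exact hn _

lemma Df_fI (I : Finset Γ) (F : P Γ) {j : Ix Γ} (hj : j ∉ Jx (I : Set Γ)) :
    Df (fI I F) j = 0 := by
  rcases j with _ | α | ⟨α, β⟩
  · exact absurd trivial hj
  · have hα : α ∉ I := hj
    simp [Df, fI, hα]
  · by_cases hαβ : α = β
    · simp [Df, fI, hαβ]
    · by_cases hβ : β ∈ I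
      · have hα : α ∉ I := fun h => hj ⟨h, hβ⟩
        simp [Df, fI, hαβ, hβ, hα]
      · simp [Df, fI, hαβ, hβ]

lemma countable_hS_fI (I : Finset Γ) (F : P Γ) : {p | hS (fI I F) p ≠ 0}.Countable := by
  have : {p | hS (fI I F) p ≠ 0} ⊆ (Jx (I : Set Γ)) ×ˢ (Set.univ : Set (Fin 4)) := by
    rintro ⟨j, k⟩ hp
    refine ⟨?_, trivial⟩
    by_contra hj
    apply hp
    simp only [hS]
    rw [Df_fI I F hj, rc_zero]
  exact ((countable_Jx I.countable_toSet).prod (Set.to_countable _)).mono this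

lemma tendsto_fI {F : P Γ} (hF : ∀ α, F (.two α α) = 0) :
    Tendsto (fun I : Finset Γ => fI I F) atTop (𝓝 F) := by
  classical
  rw [tendsto_pi_nhds]
  intro j
  apply tendsto_const_nhds.congr'
  rcases j with _ | α | ⟨α, β⟩
  · exact Eventually.of_forall fun I => rfl
  · filter_upwards [eventually_ge_atTop {α}] with I hI
    have hα : α ∈ I := hI (Finset.mem_singleton_self α)
    simp [fI, hα]
  · by_cases hαβ : α = β
    · refine Eventually.of_forall fun I => ?_
      subst hαβ
      simp [fI, hF]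
    · filter_upwards [eventually_ge_atTop {α, β}] with I hI
      have hα : α ∈ I := hI (by simp)
      have hβ : β ∈ I := hI (by simp)
      simp [fI, hαβ, hα, hβ]

/-- The hypothesis of the problem holds for `Xs Γ`. -/
theorem hyp (Γ : Type) [Nontrivial Γ] :
    (∃ A : Set (WeakDual ℂ ↥(Xs Γ)),
          ({φ : WeakDual ℂ ↥(Xs Γ) | ∀ x : ↥(Xs Γ), ‖φ x‖ ≤ ‖x‖} ⊆ closure A) ∧
          (∃ (Γ' : Type) (h : WeakDual ℂ ↥(Xs Γ) → (Γ' → ℝ)),
              ContinuousOn h {φ : WeakDual ℂ ↥(Xs Γ) | ∀ x : ↥(Xs Γ), ‖φ x‖ ≤ ‖x‖} ∧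
              Set.InjOn h {φ : WeakDual ℂ ↥(Xs Γ) | ∀ x : ↥(Xs Γ), ‖φ x‖ ≤ ‖x‖} ∧
              A = {φ : WeakDual ℂ ↥(Xs Γ) | ∀ x : ↥(Xs Γ), ‖φ x‖ ≤ ‖x‖} ∩
                    h ⁻¹' {y : Γ' → ℝ | Set.Countable {γ : Γ' | y γ ≠ 0}}) ∧
          (∀ a ∈ A, ∀ b ∈ A, ∀ t : ℝ, 0 ≤ t → t ≤ 1 →
              ((t : ℂ) • a + ((1 : ℂ) - (t : ℂ)) • b) ∈ A) ∧
          (∀ a ∈ A, ((-1 : ℂ) • a) ∈ A)) := by
  have hcomb : ∀ a ∈ ball Γ ∩ (fun φ => hS (co φ)) ⁻¹'
      {y : Ix Γ × Fin 4 → ℝ | Set.Countable {γ | y γ ≠ 0}},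
      ∀ b ∈ ball Γ ∩ (fun φ => hS (co φ)) ⁻¹'
      {y : Ix Γ × Fin 4 → ℝ | Set.Countable {γ | y γ ≠ 0}}, ∀ s t : ℝ, ‖(s : ℂ)‖ + ‖(t : ℂ)‖ ≤ 1 →
      (s : ℂ) • a + (t : ℂ) • b ∈ ball Γ ∩ (fun φ => hS (co φ)) ⁻¹'
      {y : Ix Γ × Fin 4 → ℝ | Set.Countable {γ | y γ ≠ 0}} := by
    rintro a ⟨ha1, ha2⟩ b ⟨hb1, hb2⟩ s t hst
    refine ⟨ball_comb hst ha1 hb1, ?_⟩
    refine (Set.Countable.union ha2 hb2).mono ?_
    intro p hp
    by_contra hcon
    rw [Set.mem_union, not_or] at hcon
    apply hp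
    have e1 : hS (co a) p = 0 := not_not.1 hcon.1
    have e2 : hS (co b) p = 0 := not_not.1 hcon.2
    show hS (co ((s : ℂ) • a + (t : ℂ) • b)) p = 0
    rw [co_comb, hS_comb, e1, e2, mul_zero, mul_zero, add_zero]
  refine ⟨ball Γ ∩ (fun φ => hS (co φ)) ⁻¹'
      {y : Ix Γ × Fin 4 → ℝ | Set.Countable {γ | y γ ≠ 0}}, ?_, ⟨Ix Γ × Fin 4, fun φ => hS (co φ),
    (continuous_hS.comp continuous_co).continuousOn, ?_, rfl⟩, ?_, ?_⟩
  · intro φ hφ
    have hF : co φ ∈ B Γ := co_mem_B hφ
    have h1 : Tendsto (fun I : Finset Γ => (⟨fI I (co φ), fI_mem I hF⟩ : ↥(B Γ))) atTop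
        (𝓝 ⟨co φ, hF⟩) := by
      rw [tendsto_subtype_rng]
      exact tendsto_fI hF.2
    have h2 := (continuous_ev.tendsto _).comp h1
    rw [ev_co hφ] at h2
    refine mem_closure_of_tendsto h2 (Eventually.of_forall fun I => ?_)
    refine ⟨ev_mem_ball _, ?_⟩
    exact countable_hS_fI I (co φ)
  · intro φ _ ψ _ h
    exact ext_co (hS_injective h)
  · intro a ha b hb t ht0 ht1
    have h := hcomb a ha b hb t (1 - t) (by
      rw [norm_real, norm_real, Real.norm_of_nonneg ht0, Real.norm_of_nonneg (by linarith)]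
      linarith)
    push_cast at h
    exact h
  · intro a ha
    have h := hcomb a ha a ha (-1) 0 (by simp)
    push_cast at h
    rw [zero_smul, add_zero] at h
    exact h

end Pool.Agent.Lib.MP_54c5a6_an
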