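import Pool.Agent.Lib.MP_54c5a6_an.NoSigma

/-!
# `B` has no dense convex set with countable supports that is invariant under a non-real scalar
-/

universe v

namespace Pool.Agent.Lib.MP_54c5a6_an

open Complex Cardinal

variable {Γ : Type}

/-- The closing-off theorem, for sets closed under the combinations with coefficients in `T`. -/
theorem exists_sysT [Nontrivial Γ] {Γ' : Type v} (h : P Γ → Γ' → ℝ) (hc : ContinuousOn h (B Γ))
    (hinj : Set.InjOn h (B Γ)) (A : Set (P Γ)) (hAB : A ⊆ B Γ)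
    (hAcount : ∀ F ∈ A, {δ | h F δ ≠ 0}.Countable)
    (hdense : B Γ ⊆ closure A) (T : Set (ℂ × ℂ)) (hT : T.Nonempty)
    (habs : ∀ p ∈ T, ∀ F ∈ A, ∀ G ∈ A, p.1 • F + p.2 • G ∈ A)
    (C₀ : Set (P Γ)) (N₀ : Set Γ) (hC₀A : C₀ ⊆ A) (hC₀ : C₀.Countable) (hN₀ : N₀.Countable) :
    ∃ (C : Set (P Γ)) (N : Set Γ), C₀ ⊆ C ∧ N₀ ⊆ N ∧ C ⊆ A ∧ C.Countable ∧ N.Countable ∧
      IsCompact (closure C) ∧ closure C ⊆ B Γ ∧
      (∀ p ∈ T, ∀ F ∈ closure C, ∀ G ∈ closure C, p.1 • F + p.2 • G ∈ closure C) ∧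
      (∀ F ∈ closure C, ∀ G ∈ closure C, (∀ j ∈ Jx N, F j = G j) → F = G) ∧
      (∀ F ∈ B Γ, ∃ G ∈ closure C, ∀ j ∈ Jx N, G j = F j) := by
  classical
  -- dependence
  have hcδ : ∀ δ, ContinuousOn (fun F => h F δ) (B Γ) := fun δ =>
    (continuous_apply δ).comp_continuousOn hc
  have hdep := fun δ => exists_countable_dep isCompact_B (fun F => h F δ) (hcδ δ)
  choose D hDc hD using hdep
  -- coefficients
  let Δ : Type := {p : ℂ × ℂ // p ∈ T}
  have : Nonempty Δ := hT.to_subtype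
  let coef : ℕ → Δ := TopologicalSpace.denseSeq Δ
  have hcoef : DenseRange coef := TopologicalSpace.denseRange_denseSeq Δ
  -- approximating sets
  have happ : ∀ N : Set Γ, ∃ c ⊆ A, c.Countable ∧ (N.Countable → ∀ F ∈ closure A,
      (fun F : P Γ => fun j : Jx N => F j) F ∈
        closure ((fun F : P Γ => fun j : Jx N => F j) '' c)) := by
    intro N
    by_cases hN : N.Countable
    · have : Countable (Jx N) := (countable_Jx hN).to_subtype
      obtain ⟨c, hc1, hc2, hc3⟩ := exists_countable_approx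
        (fun F : P Γ => fun j : Jx N => F j) (by fun_prop) A
      exact ⟨c, hc1, hc2, fun _ => hc3⟩
    · exact ⟨∅, Set.empty_subset _, Set.countable_empty, fun h => absurd h hN⟩
  choose cs hcsA hcsC hcs using happ
  -- operations
  let S : Type := ↥A ⊕ Γ
  let opb : ℕ → S → S → Set S := fun n a b =>
    match a, b with
    | .inl F, .inl G => {Sum.inl ⟨(coef n).1.1 • F.1 + (coef n).1.2 • G.1,
        habs _ (coef n).2 _ F.2 _ G.2⟩}
    | _, _ => ∅
  let opd : S → Set S := fun a =>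
    match a with
    | .inl F => Sum.inr '' (⋃ δ ∈ {δ | h F.1 δ ≠ 0}, ⋃ j ∈ D δ, ind j)
    | .inr _ => ∅
  let opc : Finset S → Set S := fun x =>
    {z | ∃ F : P Γ, ∃ hF : F ∈ cs {γ | Sum.inr γ ∈ x}, z = Sum.inl ⟨F, hcsA _ hF⟩}
  let Φ : Finset S → Set S := fun x =>
    (⋃ a ∈ x, ⋃ b ∈ x, ⋃ n : ℕ, opb n a b) ∪ ((⋃ a ∈ x, opd a) ∪ opc x)
  have hΦ : ∀ x, (Φ x).Countable := by
    intro x
    refine Set.Countable.union ?_ (Set.Countable.union ?_ ?_)
    · refine x.countable_toSet.biUnion fun a _ => x.countable_toSet.biUnion fun b _ =>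
        Set.countable_iUnion fun n => ?_
      rcases a with F | γ <;> rcases b with G | δ
      · exact Set.countable_singleton _
      · exact Set.countable_empty
      · exact Set.countable_empty
      · exact Set.countable_empty
    · refine x.countable_toSet.biUnion fun a _ => ?_
      rcases a with F | γ
      · refine Set.Countable.image ?_ _
        refine (hAcount F.1 F.2).biUnion fun δ _ => (hDc δ).biUnion fun j _ =>
          (ind_finite j).countable
      · exact Set.countable_empty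
    · have : opc x ⊆ (fun F : P Γ => if hF : F ∈ A then (Sum.inl ⟨F, hF⟩ : S) else
          (Sum.inr (Classical.arbitrary Γ))) '' (cs {γ | Sum.inr γ ∈ x}) := by
        rintro z ⟨F, hF, rfl⟩
        refine ⟨F, hF, ?_⟩
        simp only [dif_pos (hcsA _ hF)]
      exact ((hcsC _).image _).mono this
  obtain ⟨S₁, hS₀, hS₁c, hS₁⟩ := exists_closed Φ hΦ
    ({z | ∃ F : P Γ, ∃ hF : F ∈ C₀, z = Sum.inl ⟨F, hC₀A hF⟩} ∪ Sum.inr '' N₀) (by
      refine Set.Countable.union ?_ (hN₀.image _)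
      have : {z : S | ∃ F : P Γ, ∃ hF : F ∈ C₀, z = Sum.inl ⟨F, hC₀A hF⟩} ⊆
          (fun F : P Γ => if hF : F ∈ A then (Sum.inl ⟨F, hF⟩ : S) else
          (Sum.inr (Classical.arbitrary Γ))) '' C₀ := by
        rintro z ⟨F, hF, rfl⟩
        refine ⟨F, hF, ?_⟩
        simp only [dif_pos (hC₀A hF)]
      exact (hC₀.image _).mono this)
  let C : Set (P Γ) := {F | ∃ hF : F ∈ A, (Sum.inl ⟨F, hF⟩ : S) ∈ S₁}
  let N : Set Γ := {γ | (Sum.inr γ : S) ∈ S₁}
  have hCA : C ⊆ A := fun F hF => hF.1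
  have hCB : C ⊆ B Γ := hCA.trans hAB
  have hCc : C.Countable := by
    have : C = (fun F : ↥A => F.1) '' (Sum.inl ⁻¹' S₁) := by
      ext F
      constructor
      · rintro ⟨hF, hF2⟩
        exact ⟨⟨F, hF⟩, hF2, rfl⟩
      · rintro ⟨G, hG, rfl⟩
        exact ⟨G.2, hG⟩
    rw [this]
    exact (hS₁c.preimage Sum.inl_injective).image _
  have hNc : N.Countable := hS₁c.preimage Sum.inr_injective
  have hclB : closure C ⊆ B Γ := closure_minimal hCB isClosed_B
  have hKc : IsCompact (closure C) := isCompact_B.of_isClosed_subset isClosed_closure hclB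
  refine ⟨C, N, ?_, ?_, hCA, hCc, hNc, hKc, hclB, ?_, ?_, ?_⟩
  · intro F hF
    exact ⟨hC₀A hF, hS₀ (Or.inl ⟨F, hF, rfl⟩)⟩
  · intro γ hγ
    exact hS₀ (Or.inr ⟨γ, hγ, rfl⟩)
  · -- absolutely convex
    intro p hp F hF G hG
    let comb : Δ × (P Γ × P Γ) → P Γ := fun q => q.1.1.1 • q.2.1 + q.1.1.2 • q.2.2
    have hcomb : Continuous comb := by
      have h1 : Continuous fun q : Δ × (P Γ × P Γ) => q.1.1.1 :=
        continuous_fst.comp (continuous_subtype_val.comp continuous_fst)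
      have h2 : Continuous fun q : Δ × (P Γ × P Γ) => q.1.1.2 :=
        continuous_snd.comp (continuous_subtype_val.comp continuous_fst)
      exact (h1.smul (continuous_fst.comp continuous_snd)).add
        (h2.smul (continuous_snd.comp continuous_snd))
    have hmaps : ∀ q ∈ (Set.range coef) ×ˢ (C ×ˢ C), comb q ∈ C := by
      rintro ⟨_, F, G⟩ ⟨⟨n, rfl⟩, ⟨hFA, hFS⟩, ⟨hGA, hGS⟩⟩
      refine ⟨habs _ (coef n).2 _ hFA _ hGA, ?_⟩
      have := hS₁ {Sum.inl ⟨F, hFA⟩, Sum.inl ⟨G, hGA⟩} (by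
        intro a ha
        rw [Finset.mem_insert, Finset.mem_singleton] at ha
        rcases ha with rfl | rfl
        · exact hFS
        · exact hGS)
      apply this
      refine Or.inl ?_
      refine Set.mem_biUnion (show (Sum.inl ⟨F, hFA⟩ : S) ∈ _ from Finset.mem_insert_self _ _) ?_
      refine Set.mem_biUnion (show (Sum.inl ⟨G, hGA⟩ : S) ∈ _ from
        Finset.mem_insert_of_mem (Finset.mem_singleton_self _)) ?_
      exact Set.mem_iUnion.2 ⟨n, rfl⟩
    have hcl : (⟨⟨p, hp⟩, F, G⟩ : Δ × (P Γ × P Γ)) ∈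
        closure ((Set.range coef) ×ˢ (C ×ˢ C)) := by
      rw [closure_prod_eq, closure_prod_eq]
      exact ⟨hcoef _, hF, hG⟩
    have := map_mem_closure hcomb hcl hmaps
    exact this
  · -- uniqueness
    intro F hF G hG hFG
    apply hinj (hclB hF) (hclB hG)
    funext δ
    by_cases hδ : ∃ H ∈ C, h H δ ≠ 0
    · obtain ⟨H, ⟨hHA, hHS⟩, hHδ⟩ := hδ
      apply hD δ F (hclB hF) G (hclB hG)
      intro j hj
      apply hFG
      rw [mem_Jx_iff]
      intro γ hγ
      have := hS₁ {Sum.inl ⟨H, hHA⟩} (by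
        intro a ha
        rw [Finset.mem_singleton] at ha
        rw [ha]
        exact hHS)
      apply this
      refine Or.inr (Or.inl ?_)
      refine Set.mem_biUnion (show (Sum.inl ⟨H, hHA⟩ : S) ∈ _ from Finset.mem_singleton_self _) ?_
      exact ⟨γ, Set.mem_biUnion hHδ (Set.mem_biUnion hj hγ), rfl⟩
    · push Not at hδ
      have hcl : IsClosed (B Γ ∩ (fun F => h F δ) ⁻¹' {0}) :=
        (hcδ δ).preimage_isClosed_of_isClosed isClosed_B isClosed_singleton
      have hsub : closure C ⊆ B Γ ∩ (fun F => h F δ) ⁻¹' {0} :=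
        closure_minimal (fun H hH => ⟨hCB hH, hδ H hH⟩) hcl
      have e1 : h F δ = 0 := (hsub hF).2
      have e2 : h G δ = 0 := (hsub hG).2
      rw [e1, e2]
  · -- existence
    intro F hF
    apply exists_agree hKc
    intro I hI
    let V : Finset Γ := I.biUnion fun j => (ind_finite j).toFinset
    have hVN : ∀ γ ∈ V, γ ∈ N := by
      intro γ hγ
      rw [Finset.mem_biUnion] at hγ
      obtain ⟨j, hj, hγj⟩ := hγ
      rw [Set.Finite.mem_toFinset] at hγj
      exact mem_Jx_iff.1 (hI j hj) hγj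
    let x : Finset S := V.map Function.Embedding.inr
    have hx : {γ : Γ | (Sum.inr γ : S) ∈ x} = (V : Set Γ) := by
      ext γ
      simp [x]
    have hsub := hS₁ x (by
      intro a ha
      simp only [x, Finset.mem_map] at ha
      obtain ⟨γ, hγ, rfl⟩ := ha
      exact hVN γ hγ)
    have hcsC' : cs (V : Set Γ) ⊆ C := by
      intro G hG
      rw [← hx] at hG
      exact ⟨hcsA _ hG, hsub (Or.inr (Or.inr ⟨G, hG, rfl⟩))⟩
    have h1 := hcs (V : Set Γ) V.countable_toSet F (hdense hF)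
    have h2 : IsClosed ((fun F : P Γ => fun j : Jx (V : Set Γ) => F j) '' closure C) :=
      (hKc.image (by fun_prop)).isClosed
    have h3 : (fun F : P Γ => fun j : Jx (V : Set Γ) => F j) F ∈
        (fun F : P Γ => fun j : Jx (V : Set Γ) => F j) '' closure C := by
      refine closure_minimal ?_ h2 h1
      exact Set.image_mono (hcsC'.trans subset_closure)
    obtain ⟨G, hG, hGF⟩ := h3
    refine ⟨G, hG, fun j hj => ?_⟩
    have hjV : j ∈ Jx (V : Set Γ) := by
      rw [mem_Jx_iff]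
      intro γ hγ
      rw [Finset.mem_coe, Finset.mem_biUnion]
      exact ⟨j, hj, (Set.Finite.mem_toFinset _).2 hγ⟩
    exact congrFun hGF ⟨j, hjV⟩


/-- A closed subsystem which is only convex and invariant under `w`, `w` not real, is a closed
subsystem. -/
theorem toSys {K : Set (P Γ)} {N : Set Γ} {w : ℂ} (hw : w.im ≠ 0) (hw1 : ‖w‖ ≤ 1)
    (hK : IsCompact K) (hKB : K ⊆ B Γ) (hconv : Convex ℝ K) (hinv : ∀ F ∈ K, w • F ∈ K)
    (huniq : ∀ F ∈ K, ∀ G ∈ K, (∀ j ∈ Jx N, F j = G j) → F = G)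
    (hex : ∀ F ∈ B Γ, ∃ G ∈ K, ∀ j ∈ Jx N, G j = F j) : Sys K N := by
  have hBs : ∀ s t : ℝ, |s| + |t| ≤ 1 → ∀ x ∈ B Γ, ∀ y ∈ B Γ,
      (s : ℂ) • x + (t : ℂ) • y ∈ B Γ := by
    intro s t hst x hx y hy
    exact abs_B (by rw [norm_real, norm_real]; exact hst) hx hy
  have hBc : ∀ c : ℂ, ‖c‖ ≤ 1 → ∀ x ∈ B Γ, c • x ∈ B Γ := by
    intro c hc x hx
    have := abs_B (s := c) (t := 0) (by simpa using hc) hx hx
    simpa using this
  have hex' := hex
  choose! q hq1 hq2 using hex'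
  -- uniqueness principle
  have hqu : ∀ x ∈ B Γ, ∀ G ∈ K, (∀ j ∈ Jx N, G j = x j) → q x = G := by
    intro x hx G hG h
    exact huniq _ (hq1 x hx) _ hG fun j hj => (hq2 x hx j hj).trans (h j hj).symm
  have hqK : ∀ G ∈ K, q G = G := fun G hG => hqu G (hKB hG) G hG fun _ _ => rfl
  -- invariance
  have hqw : ∀ x ∈ B Γ, q (w • x) = w • q x := by
    intro x hx
    refine hqu _ (hBc w hw1 x hx) _ (hinv _ (hq1 x hx)) fun j hj => ?_
    rw [Pi.smul_apply, Pi.smul_apply, hq2 x hx j hj]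
  -- convexity
  have hqc : ∀ s t : ℝ, 0 ≤ s → 0 ≤ t → s + t = 1 → ∀ x ∈ B Γ, ∀ y ∈ B Γ,
      q ((s : ℂ) • x + (t : ℂ) • y) = (s : ℂ) • q x + (t : ℂ) • q y := by
    intro s t hs ht hst x hx y hy
    refine hqu _ (hBs s t (by rw [abs_of_nonneg hs, abs_of_nonneg ht]; exact hst.le) x hx y hy) _
      ?_ fun j hj => ?_
    · have := hconv (hq1 x hx) (hq1 y hy) hs ht hst
      have e : (s : ℂ) • q x + (t : ℂ) • q y = s • q x + t • q y := by
        rw [Complex.coe_smul, Complex.coe_smul]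
      rw [e]
      exact this
    · rw [Pi.add_apply, Pi.smul_apply, Pi.smul_apply, hq2 x hx j hj, hq2 y hy j hj]
      rfl
  have hw1' : w ≠ 1 := fun h => hw (by rw [h]; simp)
  have hq0 : q 0 = 0 := by
    have h1 := hqw 0 zero_mem_B
    rw [smul_zero] at h1
    have h2 : (1 - w) • q 0 = 0 := by
      rw [sub_smul, one_smul, ← h1, sub_self]
    rcases smul_eq_zero.1 h2 with h3 | h3
    · exact absurd (sub_eq_zero.1 h3).symm hw1'
    · exact h3
  have hqt : ∀ t : ℝ, 0 ≤ t → t ≤ 1 → ∀ x ∈ B Γ, q ((t : ℂ) • x) = (t : ℂ) • q x := by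
    intro t ht ht1 x hx
    have := hqc t (1 - t) ht (by linarith) (by ring) x hx 0 zero_mem_B
    rwa [smul_zero, add_zero, hq0, smul_zero, add_zero] at this
  have hqneg : ∀ x ∈ B Γ, q (-x) = -q x := by
    intro x hx
    have hnx : -x ∈ B Γ := by
      have := hBc (-1) (by simp) x hx
      simpa using this
    have h1 := hqc (1 / 2) (1 / 2) (by norm_num) (by norm_num) (by norm_num) x hx (-x) hnx
    rw [smul_neg, add_neg_cancel, hq0, ← smul_add] at h1
    have h2 : (((1 / 2 : ℝ) : ℂ)) ≠ 0 := by norm_num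
    rcases smul_eq_zero.1 h1.symm with h3 | h3
    · exact absurd h3 h2
    · exact (neg_eq_of_add_eq_zero_right h3).symm
  have hqr : ∀ t : ℝ, |t| ≤ 1 → ∀ x ∈ B Γ, q ((t : ℂ) • x) = (t : ℂ) • q x := by
    intro t ht x hx
    rcases le_total 0 t with h | h
    · exact hqt t h ((le_abs_self t).trans ht) x hx
    · have h1 := hqt (-t) (by linarith) ((neg_le_abs t).trans ht) x hx
      have hx' : ((-t : ℝ) : ℂ) • x ∈ B Γ := hBc _ (by
        rw [norm_real, Real.norm_eq_abs, abs_neg]; exact ht) x hx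
      have h2 := hqneg _ hx'
      rw [h1] at h2
      push_cast at h2
      rw [neg_smul, neg_neg, neg_smul, neg_neg] at h2
      exact h2
  -- half of a sum
  have hqh : ∀ x ∈ B Γ, ∀ y ∈ B Γ, q ((1 / 2 : ℂ) • x + (1 / 2 : ℂ) • y) =
      (1 / 2 : ℂ) • q x + (1 / 2 : ℂ) • q y := by
    intro x hx y hy
    have h1 := hqc (1 / 2) (1 / 2) (by norm_num) (by norm_num) (by norm_num) x hx y hy
    push_cast at h1
    exact h1
  have hqh1 : ∀ x ∈ B Γ, q ((1 / 2 : ℂ) • x) = (1 / 2 : ℂ) • q x := by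
    intro x hx
    have h1 := hqr (1 / 2) (by norm_num) x hx
    push_cast at h1
    exact h1
  -- complex scalars
  have hqs : ∀ c : ℂ, ‖c‖ ≤ 1 → ∀ x ∈ B Γ, q (c • x) = c • q x := by
    intro c hc x hx
    set b : ℝ := c.im / w.im with hb
    set a : ℝ := c.re - b * w.re with ha
    have hcab : c = (a : ℂ) + (b : ℂ) * w := by
      apply Complex.ext
      · simp [ha]
      · simp [hb, div_mul_cancel₀ _ hw]
    obtain ⟨ε, hε, hε1, hεa, hεb⟩ : ∃ ε : ℝ, 0 < ε ∧ ε ≤ 1 ∧ |ε * a * 2| ≤ 1 ∧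
        |ε * b * 2| ≤ 1 := by
      refine ⟨1 / (1 + 2 * |a| + 2 * |b|), by positivity, ?_, ?_, ?_⟩
      · rw [div_le_one (by positivity)]
        linarith [abs_nonneg a, abs_nonneg b]
      · have hpos : 0 < 1 + 2 * |a| + 2 * |b| := by positivity
        rw [show 1 / (1 + 2 * |a| + 2 * |b|) * a * 2 = (2 * a) / (1 + 2 * |a| + 2 * |b|) by ring,
          abs_div, abs_of_pos hpos, div_le_one hpos, abs_mul, abs_two]
        linarith [abs_nonneg a, abs_nonneg b]
      · have hpos : 0 < 1 + 2 * |a| + 2 * |b| := by positivity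
        rw [show 1 / (1 + 2 * |a| + 2 * |b|) * b * 2 = (2 * b) / (1 + 2 * |a| + 2 * |b|) by ring,
          abs_div, abs_of_pos hpos, div_le_one hpos, abs_mul, abs_two]
        linarith [abs_nonneg a, abs_nonneg b]
    have hcx := hBc c hc x hx
    have hwx := hBc w hw1 x hx
    have hax : ((ε * a * 2 : ℝ) : ℂ) • x ∈ B Γ := hBc _ (by
      rw [norm_real, Real.norm_eq_abs]; exact hεa) x hx
    have hbx : ((ε * b * 2 : ℝ) : ℂ) • (w • x) ∈ B Γ := hBc _ (by
      rw [norm_real, Real.norm_eq_abs]; exact hεb) _ hwx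
    have h1 := hqt ε hε.le hε1 _ hcx
    have h2 := hqh _ hax _ hbx
    rw [hqr _ hεa x hx, hqr _ hεb _ hwx, hqw x hx] at h2
    have e1 : (1 / 2 : ℂ) • ((ε * a * 2 : ℝ) : ℂ) • x + (1 / 2 : ℂ) • ((ε * b * 2 : ℝ) : ℂ) •
        (w • x) = (ε : ℂ) • (c • x) := by
      rw [smul_smul, smul_smul, smul_smul, smul_smul, ← add_smul]
      congr 1
      rw [hcab]
      push_cast
      ring
    have e2 : (1 / 2 : ℂ) • ((ε * a * 2 : ℝ) : ℂ) • q x + (1 / 2 : ℂ) • ((ε * b * 2 : ℝ) : ℂ) •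
        (w • q x) = (ε : ℂ) • (c • q x) := by
      rw [smul_smul, smul_smul, smul_smul, smul_smul, ← add_smul]
      congr 1
      rw [hcab]
      push_cast
      ring
    rw [e1, e2, h1] at h2
    have hε' : (ε : ℂ) ≠ 0 := by exact_mod_cast hε.ne'
    exact smul_right_injective (P Γ) hε' h2
  refine ⟨hK, hKB, ?_, huniq, hex⟩
  intro s t hst F hF G hG
  have hFB := hKB hF
  have hGB := hKB hG
  have hs : ‖s‖ ≤ 1 := by linarith [norm_nonneg t]
  have ht : ‖t‖ ≤ 1 := by linarith [norm_nonneg s]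
  have hsF := hBc s hs F hFB
  have htG := hBc t ht G hGB
  have hsum := abs_B hst hFB hGB
  have h1 := hqh _ hsF _ htG
  rw [← smul_add, hqh1 _ hsum, hqs s hs F hFB, hqs t ht G hGB, hqK F hF, hqK G hG,
    ← smul_add] at h1
  have h2 : q (s • F + t • G) = s • F + t • G :=
    smul_right_injective (P Γ) (by norm_num : (1 / 2 : ℂ) ≠ 0) h1
  rw [← h2]
  exact hq1 _ hsum

/-- The negative result on `B` in its invariant form. -/
theorem no_inv (hΓ : aleph 2 ≤ #Γ) {Γ' : Type v} (h : P Γ → Γ' → ℝ)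
    (hc : ContinuousOn h (B Γ))
    (hinj : Set.InjOn h (B Γ)) (A : Set (P Γ)) (hAB : A ⊆ B Γ)
    (hAcount : ∀ F ∈ A, {δ | h F δ ≠ 0}.Countable)
    (hdense : B Γ ⊆ closure A) (hconv : Convex ℝ A)
    (w : ℂ) (hw : w.im ≠ 0) (hinv : ∀ F ∈ A, w • F ∈ A) : False := by
  classical
  have hinf : Infinite Γ := by
    rw [Cardinal.infinite_iff]
    exact (aleph0_le_aleph 2).trans hΓ
  have hnt : Nontrivial Γ := inferInstance
  obtain ⟨φ⟩ : Nonempty (Fin 3 ↪ Γ) :=
    ⟨⟨fun i => Infinite.natEmbedding Γ i.val,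
      (Infinite.natEmbedding Γ).injective.comp Fin.val_injective⟩⟩
  -- the modulus of `w` is at most one
  have hw1 : ‖w‖ ≤ 1 := by
    by_contra hcon
    push Not at hcon
    have hpow : ∀ F ∈ A, ∀ n : ℕ, w ^ n • F ∈ A := by
      intro F hF n
      induction n with
      | zero => simpa using hF
      | succ n ih =>
        have := hinv _ ih
        rwa [smul_smul, ← pow_succ'] at this
    have hzero : ∀ F ∈ A, F = 0 := by
      intro F hF
      funext j
      apply eq_zero_of_nsq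
      by_contra hpos
      push Not at hpos
      have hw2 : 1 < normSq w := by
        rw [normSq_eq_norm_sq]
        nlinarith
      obtain ⟨n, hn⟩ := pow_unbounded_of_one_lt (1 / nsq (F j)) hw2
      have h1 := nsq_le_of_mem_B (hAB (hpow F hF n)) j
      rw [Pi.smul_apply, nsq_smul, map_pow] at h1
      rw [div_lt_iff₀ hpos] at hn
      linarith
    have hA0 : A ⊆ {0} := fun F hF => hzero F hF
    have hB0 : B Γ ⊆ {0} := hdense.trans (closure_minimal hA0 isClosed_singleton)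
    have h1 := hB0 (G1_mem (s := φ 0) (u := 0) (m := e1) (by simp) nsq_e1.le)
    have h2 : (M (φ 0) e1 + Y (.one (φ 0)) 0 : P Γ) .star = 0 := by
      rw [Set.mem_singleton_iff.1 h1]
      rfl
    have h3 : (M (φ 0) e1 + Y (.one (φ 0)) 0 : P Γ) .star = e1 := by simp
    rw [h3] at h2
    have : (1 : ℂ) = 0 := congrArg Prod.fst h2
    exact one_ne_zero this
  have hsysT : ∀ (C₀ : Set (P Γ)) (N₀ : Set Γ), C₀ ⊆ A → C₀.Countable → N₀.Countable →
      ∃ (C : Set (P Γ)) (N : Set Γ), C₀ ⊆ C ∧ N₀ ⊆ N ∧ C ⊆ A ∧ C.Countable ∧ N.Countable ∧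
        Sys (closure C) N := by
    intro C₀ N₀ hC₀A hC₀ hN₀
    obtain ⟨C, N, h1, h2, h3, h4, h5, h6, h7, h8, h9, h10⟩ := exists_sysT h hc hinj A hAB hAcount
      hdense ({p : ℂ × ℂ | ∃ s t : ℝ, 0 ≤ s ∧ 0 ≤ t ∧ s + t = 1 ∧ p = ((s : ℂ), (t : ℂ))} ∪
        {(w, 0)}) ⟨(w, 0), Or.inr rfl⟩ (by
          rintro p (⟨s, t, hs, ht, hst, rfl⟩ | rfl) F hF G hG
          · have := hconv hF hG hs ht hst
            show (s : ℂ) • F + (t : ℂ) • G ∈ A
            rw [Complex.coe_smul, Complex.coe_smul]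
            exact this
          · show w • F + (0 : ℂ) • G ∈ A
            rw [zero_smul, add_zero]
            exact hinv F hF) C₀ N₀ hC₀A hC₀ hN₀
    refine ⟨C, N, h1, h2, h3, h4, h5, toSys hw hw1 h6 h7 ?_ ?_ h9 h10⟩
    · intro F hF G hG s t hs ht hst
      have := h8 ((s : ℂ), (t : ℂ)) (Or.inl ⟨s, t, hs, ht, hst, rfl⟩) F hF G hG
      have e : s • F + t • G = (s : ℂ) • F + (t : ℂ) • G := by
        rw [Complex.coe_smul, Complex.coe_smul]
      rw [e]
      exact this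
    · intro F hF
      have := h8 (w, 0) (Or.inr rfl) F hF F hF
      simpa using this
  have h3 : ∀ N : Set Γ, Set.range φ ⊆ N → ∀ γ ∈ N, ∀ δ ∈ N, ∃ s ∈ N, s ≠ γ ∧ s ≠ δ := by
    intro N hN γ _ δ _
    by_contra hcon
    push Not at hcon
    have key : ∀ i : Fin 3, φ i = γ ∨ φ i = δ := by
      intro i
      by_cases hi : φ i = γ
      · exact Or.inl hi
      · exact Or.inr (hcon (φ i) (hN ⟨i, rfl⟩) hi)
    have k0 := key 0
    have k1 := key 1
    have k2 := key 2
    have n01 : φ 0 ≠ φ 1 := fun e => by simpa using φ.injective e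
    have n02 : φ 0 ≠ φ 2 := fun e => by simpa using φ.injective e
    have n12 : φ 1 ≠ φ 2 := fun e => by simpa using φ.injective e
    rcases k0 with a | a <;> rcases k1 with b | b <;> rcases k2 with c | c
    · exact n01 (a.trans b.symm)
    · exact n01 (a.trans b.symm)
    · exact n02 (a.trans c.symm)
    · exact n12 (b.trans c.symm)
    · exact n12 (b.trans c.symm)
    · exact n02 (a.trans c.symm)
    · exact n01 (a.trans b.symm)
    · exact n01 (a.trans b.symm)
  obtain ⟨C₁, N₁, -, hN₁r, hC₁A, hC₁c, hN₁c, S₁⟩ := hsysT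
    ∅ (Set.range φ) (Set.empty_subset _) Set.countable_empty (Set.countable_range _)
  have hsys : ∀ α : Γ, ∃ (C : Set (P Γ)) (N : Set Γ), C₁ ⊆ C ∧ Set.range φ ⊆ N ∧ α ∈ N ∧
      N.Countable ∧ Sys (closure C) N := by
    intro α
    obtain ⟨C, N, h1, h2, -, -, h5, h6⟩ := hsysT
      C₁ (Set.range φ ∪ {α}) hC₁A hC₁c ((Set.countable_range _).union (Set.countable_singleton _))
    exact ⟨C, N, h1, fun x hx => h2 (Or.inl hx), h2 (Or.inr rfl), h5, h6⟩
  choose C N hC hN hαN hNc hS using hsys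
  obtain ⟨α, β, hα, hβ⟩ := exists_free_pair hΓ N hNc
  obtain ⟨G, hG, hGj⟩ := S₁.ex (M (φ 0) e1 + Y (.one (φ 0)) 0)
    (G1_mem (s := φ 0) (u := 0) (m := e1) (by simp) nsq_e1.le)
  have hGs : G .star = e1 := by
    rw [hGj .star trivial]
    simp
  have hL := lemmaL (hS α) (h3 _ (hN α)) (hαN α) hβ G (closure_mono (hC α) hG)
  have hR := lemmaR (hS β) (h3 _ (hN β)) hα (hαN β) G (closure_mono (hC β) hG)
  rw [hR, hGs] at hL
  have : (0 : ℂ) = 1 := congrArg Prod.fst hL
  exact zero_ne_one this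

end Pool.Agent.Lib.MP_54c5a6_an
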