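import Pool.Agent.Lib.MP_54c5a6_an.Rigid
import Pool.Agent.Lib.MP_54c5a6_an.Closing

/-!
# `B` has no absolutely convex dense Σ-subset when `Γ` has cardinality at least `ℵ₂`
-/

namespace Pool.Agent.Lib.MP_54c5a6_an

open Complex Cardinal

/-- A free pair for a countable-set-valued map on a set of cardinality at least `ℵ₂`. -/
theorem exists_free_pair {Γ : Type} (hΓ : aleph 2 ≤ #Γ) (N : Γ → Set Γ)
    (hN : ∀ α, (N α).Countable) : ∃ α β, α ∉ N β ∧ β ∉ N α := by
  have h12 : aleph 1 < aleph 2 := aleph_lt_aleph.2 (by norm_num)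
  have h01 : ℵ₀ < aleph 1 := by
    rw [← aleph_zero]; exact aleph_lt_aleph.2 (by norm_num)
  obtain ⟨p, hp⟩ := le_mk_iff_exists_set.1 (h12.le.trans hΓ)
  have hU : #(⋃ x ∈ p, N x) < #Γ := by
    refine lt_of_le_of_lt (mk_biUnion_le N p) ?_
    refine lt_of_le_of_lt ?_ (lt_of_lt_of_le h12 hΓ)
    rw [hp]
    have hsup : (⨆ x : p, #(N x.1)) ≤ aleph 1 := by
      apply ciSup_le'
      intro x
      exact (Cardinal.le_aleph0_iff_set_countable.2 (hN x.1)).trans h01.le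
    calc aleph 1 * (⨆ x : p, #(N x.1)) ≤ aleph 1 * aleph 1 := mul_le_mul_right hsup _
      _ = aleph 1 := mul_eq_self h01.le
  have hβ : ∃ β, β ∉ ⋃ x ∈ p, N x := by
    by_contra hcon
    push Not at hcon
    have : (⋃ x ∈ p, N x) = Set.univ := Set.eq_univ_of_forall hcon
    rw [this, mk_univ] at hU
    exact lt_irrefl _ hU
  obtain ⟨β, hβ⟩ := hβ
  have hα : ∃ α ∈ p, α ∉ N β := by
    by_contra hcon
    push Not at hcon
    have h1 : #p ≤ #(N β) := mk_le_mk_of_subset hcon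
    rw [hp] at h1
    exact absurd (h1.trans (Cardinal.le_aleph0_iff_set_countable.2 (hN β))) (not_le.2 h01)
  obtain ⟨α, hαp, hα⟩ := hα
  exact ⟨α, β, hα, fun hb => hβ (Set.mem_biUnion hαp hb)⟩

/-- The main negative result on `B`. -/
theorem no_sigma {Γ : Type} (hΓ : aleph 2 ≤ #Γ) {Γ' : Type} (h : P Γ → Γ' → ℝ)
    (hc : ContinuousOn h (B Γ))
    (hinj : Set.InjOn h (B Γ)) (A : Set (P Γ)) (hAB : A ⊆ B Γ)
    (hAcount : ∀ F ∈ A, {δ | h F δ ≠ 0}.Countable)
    (hdense : B Γ ⊆ closure A)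
    (habs : ∀ s t : ℂ, ‖s‖ + ‖t‖ ≤ 1 → ∀ F ∈ A, ∀ G ∈ A, s • F + t • G ∈ A) : False := by
  classical
  have hinf : Infinite Γ := by
    rw [Cardinal.infinite_iff]
    exact (aleph0_le_aleph 2).trans hΓ
  have hnt : Nontrivial Γ := inferInstance
  obtain ⟨φ⟩ : Nonempty (Fin 3 ↪ Γ) :=
    ⟨⟨fun i => Infinite.natEmbedding Γ i.val,
      (Infinite.natEmbedding Γ).injective.comp Fin.val_injective⟩⟩
  have h3 : ∀ N : Set Γ, Set.range φ ⊆ N → ∀ γ ∈ N, ∀ δ ∈ N, ∃ s ∈ N, s ≠ γ ∧ s ≠ δ := by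
    intro N hN γ _ δ _
    by_contra hcon
    push Not at hcon
    have key : ∀ i : Fin 3, φ i = γ ∨ φ i = δ := by
      intro i
      by_cases hi : φ i = γ
      · exact Or.inl hi
      · exact Or.inr (hcon (φ i) (hN ⟨i, rfl⟩) hi)
    have k0 := key 0
    have k1 := key 1
    have k2 := key 2
    have n01 : φ 0 ≠ φ 1 := fun e => by simpa using φ.injective e
    have n02 : φ 0 ≠ φ 2 := fun e => by simpa using φ.injective e
    have n12 : φ 1 ≠ φ 2 := fun e => by simpa using φ.injective e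
    rcases k0 with a | a <;> rcases k1 with b | b <;> rcases k2 with c | c
    · exact n01 (a.trans b.symm)
    · exact n01 (a.trans b.symm)
    · exact n02 (a.trans c.symm)
    · exact n12 (b.trans c.symm)
    · exact n12 (b.trans c.symm)
    · exact n02 (a.trans c.symm)
    · exact n01 (a.trans b.symm)
    · exact n01 (a.trans b.symm)
  obtain ⟨C₁, N₁, -, hN₁r, hC₁A, hC₁c, hN₁c, S₁⟩ := exists_sys h hc hinj A hAB hAcount hdense habs
    ∅ (Set.range φ) (Set.empty_subset _) Set.countable_empty (Set.countable_range _)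
  have hsys : ∀ α : Γ, ∃ (C : Set (P Γ)) (N : Set Γ), C₁ ⊆ C ∧ Set.range φ ⊆ N ∧ α ∈ N ∧
      N.Countable ∧ Sys (closure C) N := by
    intro α
    obtain ⟨C, N, h1, h2, -, -, h5, h6⟩ := exists_sys h hc hinj A hAB hAcount hdense habs
      C₁ (Set.range φ ∪ {α}) hC₁A hC₁c ((Set.countable_range _).union (Set.countable_singleton _))
    exact ⟨C, N, h1, fun x hx => h2 (Or.inl hx), h2 (Or.inr rfl), h5, h6⟩
  choose C N hC hN hαN hNc hS using hsys
  obtain ⟨α, β, hα, hβ⟩ := exists_free_pair hΓ N hNc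
  obtain ⟨G, hG, hGj⟩ := S₁.ex (M (φ 0) e1 + Y (.one (φ 0)) 0)
    (G1_mem (s := φ 0) (u := 0) (m := e1) (by simp) nsq_e1.le)
  have hGs : G .star = e1 := by
    rw [hGj .star trivial]
    simp
  have hL := lemmaL (hS α) (h3 _ (hN α)) (hαN α) hβ G (closure_mono (hC α) hG)
  have hR := lemmaR (hS β) (h3 _ (hN β)) hα (hαN β) G (closure_mono (hC β) hG)
  rw [hR, hGs] at hL
  have : (0 : ℂ) = 1 := congrArg Prod.fst hL
  exact zero_ne_one this

end Pool.Agent.Lib.MP_54c5a6_an
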