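import Pool.Agent.Lib.MP_54c5a6_an.Closing

/-!
# The Banach space whose dual ball is `B`
-/

namespace Pool.Agent.Lib.MP_54c5a6_an

open Complex

variable (Γ : Type) [Nontrivial Γ]

instance : CompactSpace ↥(B Γ) := isCompact_iff_compactSpace.1 isCompact_B

variable {Γ}

/-- first component of a coordinate function -/
def c1 (j : Ix Γ) : C(↥(B Γ), ℂ) :=
  ⟨fun F => (F.1 j).1, continuous_fst.comp ((continuous_apply j).comp continuous_subtype_val)⟩

/-- second component of a coordinate function -/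
def c2 (j : Ix Γ) : C(↥(B Γ), ℂ) :=
  ⟨fun F => (F.1 j).2, continuous_snd.comp ((continuous_apply j).comp continuous_subtype_val)⟩

variable (Γ)

/-- the span of the coordinate functions -/
noncomputable def sp : Submodule ℂ C(↥(B Γ), ℂ) := Submodule.span ℂ (Set.range c1 ∪ Set.range c2)

/-- The Banach space. -/
noncomputable abbrev Xs : Submodule ℂ C(↥(B Γ), ℂ) := (sp Γ).topologicalClosure

instance : CompleteSpace ↥(Xs Γ) := (sp Γ).isClosed_topologicalClosure.completeSpace_coe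

variable {Γ}

/-- first component of a coordinate function, in `Xs` -/
def d1 (j : Ix Γ) : ↥(Xs Γ) :=
  ⟨c1 j, (sp Γ).le_topologicalClosure (Submodule.subset_span (Or.inl ⟨j, rfl⟩))⟩

/-- second component of a coordinate function, in `Xs` -/
def d2 (j : Ix Γ) : ↥(Xs Γ) :=
  ⟨c2 j, (sp Γ).le_topologicalClosure (Submodule.subset_span (Or.inr ⟨j, rfl⟩))⟩

/-- evaluation -/
noncomputable def ev (F : ↥(B Γ)) : WeakDual ℂ ↥(Xs Γ) :=
  StrongDual.toWeakDual ((ContinuousMap.evalCLM ℂ F).comp (Xs Γ).subtypeL)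

lemma ev_apply (F : ↥(B Γ)) (x : ↥(Xs Γ)) : ev F x = x.1 F := rfl

/-- coordinates -/
noncomputable def co (φ : WeakDual ℂ ↥(Xs Γ)) : P Γ := fun j => (φ (d1 j), φ (d2 j))

lemma co_ev (F : ↥(B Γ)) : co (ev F) = F.1 := rfl

lemma continuous_ev : Continuous (ev (Γ := Γ)) :=
  WeakDual.continuous_of_continuous_eval fun x => x.1.continuous

lemma continuous_co : Continuous (co (Γ := Γ)) :=
  continuous_pi fun _ => (WeakDual.eval_continuous _).prodMk (WeakDual.eval_continuous _)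

lemma co_comb (s t : ℂ) (φ ψ : WeakDual ℂ ↥(Xs Γ)) :
    co (s • φ + t • ψ) = s • co φ + t • co ψ := rfl

/-- the unit ball -/
def ball (Γ : Type) [Nontrivial Γ] : Set (WeakDual ℂ ↥(Xs Γ)) :=
  {φ : WeakDual ℂ ↥(Xs Γ) | ∀ x : ↥(Xs Γ), ‖φ x‖ ≤ ‖x‖}

lemma ev_mem_ball (F : ↥(B Γ)) : ev F ∈ ball Γ := fun x => x.1.norm_coe_le_norm F

lemma ball_comb {s t : ℂ} (hst : ‖s‖ + ‖t‖ ≤ 1) {φ ψ : WeakDual ℂ ↥(Xs Γ)} (hφ : φ ∈ ball Γ)
    (hψ : ψ ∈ ball Γ) : s • φ + t • ψ ∈ ball Γ := by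
  intro x
  have e : (s • φ + t • ψ) x = s * φ x + t * ψ x := rfl
  rw [e]
  have h1 : ‖φ x‖ ≤ ‖x‖ := hφ x
  have h2 : ‖ψ x‖ ≤ ‖x‖ := hψ x
  have h0 := norm_nonneg x
  calc ‖s * φ x + t * ψ x‖ ≤ ‖s * φ x‖ + ‖t * ψ x‖ := norm_add_le _ _
    _ = ‖s‖ * ‖φ x‖ + ‖t‖ * ‖ψ x‖ := by rw [norm_mul, norm_mul]
    _ ≤ ‖s‖ * ‖x‖ + ‖t‖ * ‖x‖ := by gcongr
    _ = (‖s‖ + ‖t‖) * ‖x‖ := by ring
    _ ≤ 1 * ‖x‖ := by gcongr
    _ = ‖x‖ := one_mul _

lemma lin_Q4 (f : Q4 →L[ℂ] ℂ) (q : Q4) :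
    f q = q.1.1 * f ((1, 0), 0, 0, 0) + q.1.2 * f ((0, 1), 0, 0, 0) +
      (q.2.1.1 * f (0, (1, 0), 0, 0) + q.2.1.2 * f (0, (0, 1), 0, 0)) +
      (q.2.2.1.1 * f (0, 0, (1, 0), 0) + q.2.2.1.2 * f (0, 0, (0, 1), 0)) +
      (q.2.2.2.1 * f (0, 0, 0, (1, 0)) + q.2.2.2.2 * f (0, 0, 0, (0, 1))) := by
  have hq : q = q.1.1 • (((1, 0), 0, 0, 0) : Q4) + q.1.2 • (((0, 1), 0, 0, 0) : Q4) +
      (q.2.1.1 • ((0, (1, 0), 0, 0) : Q4) + q.2.1.2 • ((0, (0, 1), 0, 0) : Q4)) +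
      (q.2.2.1.1 • ((0, 0, (1, 0), 0) : Q4) + q.2.2.1.2 • ((0, 0, (0, 1), 0) : Q4)) +
      (q.2.2.2.1 • ((0, 0, 0, (1, 0)) : Q4) + q.2.2.2.2 • ((0, 0, 0, (0, 1)) : Q4)) := by
    ext <;> simp
  conv_lhs => rw [hq]
  simp only [map_add, map_smul, smul_eq_mul]

/-- the element of `Xs` given by a functional of a quadruple -/
noncomputable def xel (f : Q4 →L[ℂ] ℂ) (α β : Γ) : ↥(Xs Γ) :=
  f ((1, 0), 0, 0, 0) • d1 (.two α β) + f ((0, 1), 0, 0, 0) • d2 (.two α β) +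
      (f (0, (1, 0), 0, 0) • d1 (.one α) + f (0, (0, 1), 0, 0) • d2 (.one α)) +
      (f (0, 0, (1, 0), 0) • d1 (.one β) + f (0, 0, (0, 1), 0) • d2 (.one β)) +
      (f (0, 0, 0, (1, 0)) • d1 .star + f (0, 0, 0, (0, 1)) • d2 .star)

lemma apply_xel (f : Q4 →L[ℂ] ℂ) (α β : Γ) (φ : WeakDual ℂ ↥(Xs Γ)) :
    φ (xel f α β) = f (quad (co φ) α β) := by
  rw [lin_Q4 f (quad (co φ) α β)]
  simp only [xel, map_add, map_smul, smul_eq_mul, quad, co]
  ring

lemma co_mem_B {φ : WeakDual ℂ ↥(Xs Γ)} (hφ : φ ∈ ball Γ) : co φ ∈ B Γ := by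
  refine ⟨fun α β hαβ => ?_, fun α => ?_⟩
  · by_contra hcon
    obtain ⟨f, u, hf1, hf2⟩ := RCLike.geometric_hahn_banach_closed_point (𝕜 := ℂ)
      convex_U isCompact_U.isClosed hcon
    have hu : ∀ a ∈ U, ‖f a‖ ≤ u := by
      intro a ha
      by_cases hfa : f a = 0
      · rw [hfa, norm_zero]
        have := hf1 0 zero_mem_U
        rw [map_zero] at this
        simpa using this.le
      · have hn : (‖f a‖ : ℂ) ≠ 0 := by simpa using hfa
        set c : ℂ := starRingEnd ℂ (f a) / ‖f a‖ with hc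
        have hc1 : ‖c‖ = 1 := by
          rw [hc, norm_div, RCLike.norm_conj, norm_real, norm_norm, div_self]
          simpa using hfa
        have h1 := (hf1 (c • a) (circled_U hc1 ha)).le
        have h2 : f (c • a) = (‖f a‖ : ℂ) := by
          rw [map_smul, smul_eq_mul, hc, div_mul_eq_mul_div, mul_comm, mul_conj,
            normSq_eq_norm_sq, div_eq_iff hn]
          push_cast
          ring
        rw [h2] at h1
        simpa using h1
    have hx : ‖xel f α β‖ ≤ u := by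
      have hu0 : 0 ≤ u := (norm_nonneg _).trans (hu 0 zero_mem_U)
      refine (ContinuousMap.norm_le _ hu0).2 fun F => ?_
      have : (xel f α β).1 F = f (quad F.1 α β) := by
        have := apply_xel f α β (ev F)
        rwa [ev_apply, co_ev] at this
      show ‖(xel f α β).1 F‖ ≤ u
      rw [this]
      exact hu _ (F.2.1 α β hαβ)
    have h3 : ‖φ (xel f α β)‖ ≤ u := (hφ _).trans hx
    rw [apply_xel] at h3
    have h4 := (RCLike.re_le_norm (f (quad (co φ) α β))).trans h3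
    exact absurd hf2 (not_lt.2 h4)
  · have h1 : d1 (Γ := Γ) (.two α α) = 0 := by
      apply Subtype.ext
      ext F
      show (F.1 (.two α α)).1 = 0
      rw [F.2.2 α]; rfl
    have h2 : d2 (Γ := Γ) (.two α α) = 0 := by
      apply Subtype.ext
      ext F
      show (F.1 (.two α α)).2 = 0
      rw [F.2.2 α]; rfl
    show (φ (d1 (.two α α)), φ (d2 (.two α α))) = 0
    rw [h1, h2, map_zero]
    rfl

lemma ext_co {φ ψ : WeakDual ℂ ↥(Xs Γ)} (h : co φ = co ψ) : φ = ψ := by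
  have hφc : Continuous φ := (WeakDual.toStrongDual φ).continuous
  have hψc : Continuous ψ := (WeakDual.toStrongDual ψ).continuous
  have hdense : Dense {x : ↥(Xs Γ) | x.1 ∈ sp Γ} := by
    rw [Subtype.dense_iff]
    intro x hx
    have h1 : x ∈ closure ((sp Γ : Submodule ℂ C(↥(B Γ), ℂ)) : Set C(↥(B Γ), ℂ)) := by
      simpa using hx
    refine closure_mono ?_ h1
    intro y hy
    exact ⟨⟨y, (sp Γ).le_topologicalClosure hy⟩, hy, rfl⟩
  have key : ∀ y (hy : y ∈ sp Γ) (hy' : y ∈ Xs Γ), φ ⟨y, hy'⟩ = ψ ⟨y, hy'⟩ := by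
    intro y hy
    induction hy using Submodule.span_induction with
    | mem y hy =>
      intro hy'
      rcases hy with ⟨j, rfl⟩ | ⟨j, rfl⟩
      · exact congrArg Prod.fst (congrFun h j)
      · exact congrArg Prod.snd (congrFun h j)
    | zero =>
      intro hy'
      have : (⟨0, hy'⟩ : ↥(Xs Γ)) = 0 := rfl
      rw [this, map_zero, map_zero]
    | add y z hy hz ihy ihz =>
      intro hy'
      have hy1 := (sp Γ).le_topologicalClosure hy
      have hz1 := (sp Γ).le_topologicalClosure hz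
      have : (⟨y + z, hy'⟩ : ↥(Xs Γ)) = ⟨y, hy1⟩ + ⟨z, hz1⟩ := rfl
      rw [this, map_add, map_add, ihy hy1, ihz hz1]
    | smul c y hy ihy =>
      intro hy'
      have hy1 := (sp Γ).le_topologicalClosure hy
      have : (⟨c • y, hy'⟩ : ↥(Xs Γ)) = c • ⟨y, hy1⟩ := rfl
      rw [this, map_smul, map_smul, ihy hy1]
  have hfun : (φ : ↥(Xs Γ) → ℂ) = ψ :=
    Continuous.ext_on hdense hφc hψc fun x hx => key x.1 hx x.2
  exact DFunLike.coe_injective hfun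

lemma ev_co {φ : WeakDual ℂ ↥(Xs Γ)} (hφ : φ ∈ ball Γ) : ev ⟨co φ, co_mem_B hφ⟩ = φ :=
  ext_co rfl

lemma ev_comb {s t : ℂ} (hst : ‖s‖ + ‖t‖ ≤ 1) (F G : ↥(B Γ)) :
    ev ⟨s • F.1 + t • G.1, abs_B hst F.2 G.2⟩ = s • ev F + t • ev G :=
  ext_co (by rw [co_comb, co_ev, co_ev, co_ev])

end Pool.Agent.Lib.MP_54c5a6_an
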