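import Pool.Agent.Lib.MP_54c5a6_an.Core

/-!
# The values of the elements of a closed subsystem outside of its coordinates
-/

namespace Pool.Agent.Lib.MP_54c5a6_an

open Complex

variable {Γ : Type} {K : Set (P Γ)} {N : Set Γ}

lemma line_of_add_sub {x y w : E} (h1 : ∃ z : ℂ, x + y = z • w) (h2 : ∃ z : ℂ, x - y = z • w) :
    (∃ z : ℂ, x = z • w) ∧ ∃ z : ℂ, y = z • w := by
  obtain ⟨a, ha⟩ := h1
  obtain ⟨b, hb⟩ := h2
  have e1 : (2 : ℂ) • x = (a + b) • w := by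
    rw [add_smul, ← ha, ← hb, two_smul]; abel
  have e2 : (2 : ℂ) • y = (a - b) • w := by
    rw [sub_smul, ← ha, ← hb, two_smul]; abel
  refine ⟨⟨(a + b) / 2, ?_⟩, ⟨(a - b) / 2, ?_⟩⟩
  · rw [div_eq_inv_mul, mul_smul, ← e1, smul_smul]; norm_num
  · rw [div_eq_inv_mul, mul_smul, ← e2, smul_smul]; norm_num

lemma line_sub {x y w : E} (h1 : ∃ z : ℂ, x + y = z • w) (h2 : ∃ z : ℂ, x = z • w) :
    ∃ z : ℂ, y = z • w := by
  obtain ⟨a, ha⟩ := h1
  obtain ⟨b, hb⟩ := h2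
  refine ⟨a - b, ?_⟩
  rw [sub_smul, ← ha, ← hb]; abel

lemma line_neg {y w : E} (h1 : ∃ z : ℂ, y = z • w) : ∃ z : ℂ, -y = z • w := by
  obtain ⟨a, ha⟩ := h1
  exact ⟨-a, by rw [ha, neg_smul]⟩

/-- Lemma 0: coordinates `G_β`, `β ∉ N`, vanish on `K`. -/
theorem lemma0 [Nontrivial Γ] (S : Sys K N)
    (hN : ∀ γ ∈ N, ∀ δ ∈ N, ∃ s ∈ N, s ≠ γ ∧ s ≠ δ) (hne : N.Nonempty)
    {β : Γ} (hβ : β ∉ N) : ∀ G ∈ K, G (.one β) = 0 := by
  obtain ⟨Λ, hΛ⟩ := S.exists_proj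
  let l : P Γ →ₗ[ℂ] E := LinearMap.proj (.one β)
  have hl : Continuous l := continuous_apply _
  -- the basic rigidity consequence
  have key : ∀ s ∈ N, ∀ u m, nsq u = 1 → nsq m = 1 → Tfree u m → ∀ F ∈ B Γ, F (.one s) = u →
      F .star = m → ∃ z : ℂ, l (Λ F) = z • cj m := by
    intro s hs u m hu hm hum F hF hFu hFm
    obtain ⟨h1, h2⟩ := hΛ F hF
    have hne : s ≠ β := fun h => hβ (h ▸ hs)
    have h3 := (S.sub h1).1 s β hne
    unfold quad at h3
    rw [h2 (.one s) hs, h2 .star trivial, hFu, hFm] at h3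
    exact (rigid1 hu hm hum h3).2
  -- base
  have base : ∀ s ∈ N, ∀ u m, nsq u = 1 → nsq m = 1 → Tfree u m →
      (∃ z : ℂ, l (Λ (M s m)) = z • cj m) ∧ ∃ z : ℂ, l (Λ (Y (.one s) u)) = z • cj m := by
    intro s hs u m hu hm hum
    have h1 := key s hs u m hu hm hum _ (G1_mem (s := s) hu.le hm.le) (by simp [Y_apply])
      (by simp [Y_apply])
    have h2 := key s hs (-u) m (by rwa [nsq_neg]) hm (Tfree_neg hum) _
      (G1_mem (s := s) (u := -u) (by rw [nsq_neg]; exact hu.le) hm.le) (by simp [Y_apply])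
      (by simp [Y_apply])
    rw [map_add, map_add] at h1
    rw [map_neg, ← sub_eq_add_neg, map_sub, map_sub] at h2
    exact line_of_add_sub h1 h2
  have hY : ∀ s ∈ N, ∀ x, l (Λ (Y (.one s) x)) = 0 := by
    intro s hs
    have g1 : l (Λ (Y (.one s) e1)) = 0 := by
      have a := (base s hs e1 e2 nsq_e1 nsq_e2 Tfree_12).2
      have b := (base s hs e1 e3 nsq_e1 nsq_e3 Tfree_13).2
      rw [cj_e2] at a
      rw [cj_e3] at b
      exact zero_of_23 a b
    have g2 : l (Λ (Y (.one s) e2)) = 0 := by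
      have a := (base s hs e2 e1 nsq_e2 nsq_e1 Tfree_21).2
      have b := (base s hs e2 e3 nsq_e2 nsq_e3 Tfree_23).2
      rw [cj_e1] at a
      rw [cj_e3] at b
      exact zero_of_13 a b
    exact lin_ext (l ∘ₗ Λ ∘ₗ Y (.one s)) g1 g2
  have hM : ∀ s ∈ N, ∀ x, l (Λ (M s x)) = 0 := by
    intro s hs
    exact lin_zero (l ∘ₗ Λ ∘ₗ M s) (base s hs e2 e1 nsq_e2 nsq_e1 Tfree_21).1
      (base s hs e1 e2 nsq_e1 nsq_e2 Tfree_12).1 (base s hs e1 e3 nsq_e1 nsq_e3 Tfree_13).1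
      (base s hs e1 e4 nsq_e1 nsq_e4 Tfree_14).1
  have hT : ∀ γ ∈ N, ∀ δ ∈ N, γ ≠ δ → ∀ x, l (Λ (Y (.two γ δ) x)) = 0 := by
    intro γ hγ δ hδ hγδ
    obtain ⟨s, hs, hsγ, hsδ⟩ := hN γ hγ δ hδ
    have step : ∀ u m t, nsq u = 1 → nsq m = 1 → Tfree u m → nsq t ≤ 1 →
        ∃ z : ℂ, l (Λ (Y (.two γ δ) (t - m))) = z • cj m := by
      intro u m t hu hm hum ht
      have h1 := key s hs u m hu hm hum _
        (G1t_mem (γ := γ) (δ := δ) (s := s) (Ne.symm hsγ) (Ne.symm hsδ) hγδ hu.le hm.le ht)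
        (by simp [Y_apply]) (by simp [Y_apply])
      rw [map_add, map_add, map_add, map_add, hM s hs, hY s hs, zero_add, zero_add] at h1
      exact h1
    have step2 : ∀ u m t, nsq u = 1 → nsq m = 1 → Tfree u m → nsq t ≤ 1 →
        ∃ z : ℂ, l (Λ (Y (.two γ δ) t)) = z • cj m := by
      intro u m t hu hm hum ht
      obtain ⟨a, ha⟩ := step u m t hu hm hum ht
      obtain ⟨b, hb⟩ := step u m 0 hu hm hum (by simp)
      refine ⟨a - b, ?_⟩
      rw [sub_smul, ← ha, ← hb, ← map_sub, ← map_sub, ← map_sub]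
      congr 3
      abel
    have hz : ∀ t, nsq t ≤ 1 → l (Λ (Y (.two γ δ) t)) = 0 := by
      intro t ht
      have a := step2 e2 e1 t nsq_e2 nsq_e1 Tfree_21 ht
      have b := step2 e1 e2 t nsq_e1 nsq_e2 Tfree_12 ht
      rw [cj_e1] at a
      rw [cj_e2] at b
      exact zero_of_12 a b
    exact lin_ext (l ∘ₗ Λ ∘ₗ Y (.two γ δ)) (hz e1 nsq_e1.le) (hz e2 nsq_e2.le)
  obtain ⟨s, hs⟩ := hne
  exact S.vanish hΛ l hl s (hM s hs) hY hT

/-- The core lemma. -/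
theorem core [Nontrivial Γ] (S : Sys K N) {s : Γ} (hs : s ∈ N) (l : P Γ →ₗ[ℂ] E)
    (hl : Continuous l)
    (p1 : ∀ G ∈ K, nsq (G (.one s)) = 1 → nsq (G .star) = 1 → Tfree (G (.one s)) (G .star) →
      l G = 0)
    (p2 : ∀ G ∈ K, nsq (G .star) = 1 → G (.one s) = cj (G .star) →
      ∃ z : ℂ, l G = z • G .star) : ∀ G ∈ K, l G = 0 := by
  obtain ⟨Λ, hΛ⟩ := S.exists_proj
  have key1 : ∀ u m, nsq u = 1 → nsq m = 1 → Tfree u m → ∀ F ∈ B Γ, F (.one s) = u →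
      F .star = m → l (Λ F) = 0 := by
    intro u m hu hm hum F hF hFu hFm
    obtain ⟨h1, h2⟩ := hΛ F hF
    have a1 := h2 (.one s) hs
    have a2 := h2 .star trivial
    rw [hFu] at a1
    rw [hFm] at a2
    exact p1 _ h1 (by rw [a1]; exact hu) (by rw [a2]; exact hm) (by rw [a1, a2]; exact hum)
  have key2 : ∀ m, nsq m = 1 → ∀ F ∈ B Γ, F (.one s) = cj m →
      F .star = m → ∃ z : ℂ, l (Λ F) = z • m := by
    intro m hm F hF hFu hFm
    obtain ⟨h1, h2⟩ := hΛ F hF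
    have a1 := h2 (.one s) hs
    have a2 := h2 .star trivial
    rw [hFu] at a1
    rw [hFm] at a2
    have := p2 _ h1 (by rw [a2]; exact hm) (by rw [a1, a2])
    rwa [a2] at this
  -- base
  have base : ∀ u m, nsq u = 1 → nsq m = 1 → Tfree u m →
      l (Λ (M s m)) = 0 ∧ l (Λ (Y (.one s) u)) = 0 := by
    intro u m hu hm hum
    have h1 := key1 u m hu hm hum _ (G1_mem (s := s) hu.le hm.le) (by simp [Y_apply])
      (by simp [Y_apply])
    have h2 := key1 (-u) m (by rwa [nsq_neg]) hm (Tfree_neg hum) _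
      (G1_mem (s := s) (u := -u) (by rw [nsq_neg]; exact hu.le) hm.le) (by simp [Y_apply])
      (by simp [Y_apply])
    rw [map_add, map_add] at h1
    rw [map_neg, ← sub_eq_add_neg, map_sub, map_sub] at h2
    have h3 : l (Λ (M s m)) = l (Λ (Y (.one s) u)) := sub_eq_zero.1 h2
    rw [h3, ← two_smul ℂ] at h1
    have h4 : l (Λ (Y (.one s) u)) = 0 := by
      rcases smul_eq_zero.1 h1 with h | h
      · norm_num at h
      · exact h
    exact ⟨h3.trans h4, h4⟩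
  have b12 := base e1 e2 nsq_e1 nsq_e2 Tfree_12
  have b21 := base e2 e1 nsq_e2 nsq_e1 Tfree_21
  have hYs : ∀ x, l (Λ (Y (.one s) x)) = 0 := lin_ext (l ∘ₗ Λ ∘ₗ Y (.one s)) b12.2 b21.2
  have hM : ∀ x, l (Λ (M s x)) = 0 := lin_ext (l ∘ₗ Λ ∘ₗ M s) b21.1 b12.1
  -- directions `(γ, δ)`
  have hT1 : ∀ γ δ, γ ≠ s → δ ≠ s → γ ≠ δ → ∀ x, l (Λ (Y (.two γ δ) x)) = 0 := by
    intro γ δ hγ hδ hγδ
    have step : ∀ u m, nsq u = 1 → nsq m = 1 → Tfree u m → l (Λ (Y (.two γ δ) m)) = 0 := by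
      intro u m hu hm hum
      have h1 := key1 u m hu hm hum _
        (G1t_mem (γ := γ) (δ := δ) (s := s) (t := 0) hγ hδ hγδ hu.le hm.le (by simp))
        (by simp [Y_apply]) (by simp [Y_apply])
      rw [map_add, map_add, map_add, map_add, hM, hYs, zero_add, zero_add, zero_sub, map_neg,
        map_neg, map_neg, neg_eq_zero] at h1
      exact h1
    exact lin_ext (l ∘ₗ Λ ∘ₗ Y (.two γ δ)) (step e2 e1 nsq_e2 nsq_e1 Tfree_21)
      (step e1 e2 nsq_e1 nsq_e2 Tfree_12)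
  -- directions `γ` and `(γ, s)`
  have hT2 : ∀ γ, γ ≠ s → (∀ x, l (Λ (Y (.one γ) x)) = 0) ∧
      ∀ x, l (Λ (Y (.two γ s) x)) = 0 := by
    intro γ hγ
    have step : ∀ u m, nsq u = 1 → nsq m = 1 → Tfree u m →
        l (Λ (Y (.one γ) (cj m))) = 0 ∧ l (Λ (Y (.two γ s) (cj u))) = 0 := by
      intro u m hu hm hum
      have h1 := key1 u m hu hm hum _ (G2_mem (s := s) (γ := γ) hγ hu.le hm.le)
        (by simp [Y_apply, Ne.symm hγ]) (by simp [Y_apply])
      have h2 := key1 (-u) m (by rwa [nsq_neg]) hm (Tfree_neg hum) _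
        (G2_mem (s := s) (γ := γ) (u := -u) hγ (by rw [nsq_neg]; exact hu.le) hm.le)
        (by simp [Y_apply, Ne.symm hγ]) (by simp [Y_apply])
      rw [map_add, map_add, map_add, map_add, map_add, map_add, hM, hYs, zero_add, zero_add] at h1
      rw [map_add, map_add, map_add, map_add, map_add, map_add, hM, hYs, zero_add, zero_add,
        cj_neg, map_neg, map_neg, map_neg, ← sub_eq_add_neg] at h2
      have h3 : l (Λ (Y (.one γ) (cj m))) = l (Λ (Y (.two γ s) (cj u))) := sub_eq_zero.1 h2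
      rw [h3, ← two_smul ℂ] at h1
      have h4 : l (Λ (Y (.two γ s) (cj u))) = 0 := by
        rcases smul_eq_zero.1 h1 with h | h
        · norm_num at h
        · exact h
      exact ⟨h3.trans h4, h4⟩
    have c12 := step e1 e2 nsq_e1 nsq_e2 Tfree_12
    have c21 := step e2 e1 nsq_e2 nsq_e1 Tfree_21
    rw [cj_e1, cj_e2] at c12 c21
    exact ⟨lin_ext (l ∘ₗ Λ ∘ₗ Y (.one γ)) c21.1 c12.1,
      lin_ext (l ∘ₗ Λ ∘ₗ Y (.two γ s)) c12.2 c21.2⟩
  have hY : ∀ γ, ∀ x, l (Λ (Y (.one γ) x)) = 0 := by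
    intro γ
    by_cases h : γ = s
    · rw [h]; exact hYs
    · exact (hT2 γ h).1
  -- directions `(s, γ)`
  have hT3 : ∀ γ, γ ≠ s → ∀ x, l (Λ (Y (.two s γ) x)) = 0 := by
    intro γ hγ
    have step : ∀ v m, nsq v ≤ 1 → nsq m = 1 →
        ∃ z : ℂ, l (Λ (M γ m)) + l (Λ (Y (.two s γ) (cj v))) = z • m := by
      intro v m hv hm
      have h1 := key2 m hm _ (G3_mem (s := s) (γ := γ) hγ hv hm.le)
        (by simp [Y_apply, Ne.symm hγ]) (by simp [Y_apply])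
      rw [map_add, map_add, map_add, map_add, map_add, map_add, hYs, hY, add_zero, add_zero] at h1
      exact h1
    have step2 : ∀ v m, nsq v ≤ 1 → nsq m = 1 →
        ∃ z : ℂ, l (Λ (Y (.two s γ) (cj v))) = z • m := by
      intro v m hv hm
      have a := step v m hv hm
      have b := step 0 m (by simp) hm
      rw [cj_zero, map_zero, map_zero, map_zero, add_zero] at b
      exact line_sub a b
    have hz : ∀ v, nsq v ≤ 1 → l (Λ (Y (.two s γ) (cj v))) = 0 := fun v hv =>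
      zero_of_12 (step2 v e1 hv nsq_e1) (step2 v e2 hv nsq_e2)
    have z1 := hz e1 nsq_e1.le
    have z2 := hz e2 nsq_e2.le
    rw [cj_e1] at z1
    rw [cj_e2] at z2
    exact lin_ext (l ∘ₗ Λ ∘ₗ Y (.two s γ)) z1 z2
  refine S.vanish hΛ l hl s hM (fun γ _ => hY γ) ?_
  intro γ _ δ _ hγδ
  by_cases h1 : γ = s
  · subst h1
    exact hT3 δ (Ne.symm hγδ)
  · by_cases h2 : δ = s
    · subst h2
      exact (hT2 γ h1).2
    · exact hT1 γ δ h1 h2 hγδ

/-- Lemma L -/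
theorem lemmaL [Nontrivial Γ] (S : Sys K N)
    (hN : ∀ γ ∈ N, ∀ δ ∈ N, ∃ s ∈ N, s ≠ γ ∧ s ≠ δ)
    {α β : Γ} (hα : α ∈ N) (hβ : β ∉ N) : ∀ G ∈ K, G (.two α β) = G .star := by
  have h0 := lemma0 S hN ⟨α, hα⟩ hβ
  have hne : α ≠ β := fun h => hβ (h ▸ hα)
  let l : P Γ →ₗ[ℂ] E := LinearMap.proj (.two α β) - LinearMap.proj .star
  have hlG : ∀ G, l G = G (.two α β) - G .star := fun G => rfl
  have hl : Continuous l := (continuous_apply (Ix.two α β)).sub (continuous_apply Ix.star)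
  have := core S hα l hl ?_ ?_
  · intro G hG
    have := this G hG
    rw [hlG] at this
    exact sub_eq_zero.1 this
  · intro G hG hu hm hum
    rw [hlG, sub_eq_zero]
    have h3 := (S.sub hG).1 α β hne
    exact (rigid1 hu hm hum h3).1
  · intro G hG hm hum
    have h3 := (S.sub hG).1 α β hne
    unfold quad at h3
    rw [hum, h0 G hG] at h3
    obtain ⟨z, hz⟩ := rigid3 hm h3
    refine ⟨z - 1, ?_⟩
    rw [hlG, hz, sub_smul, one_smul]

/-- Lemma R -/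
theorem lemmaR [Nontrivial Γ] (S : Sys K N)
    (hN : ∀ γ ∈ N, ∀ δ ∈ N, ∃ s ∈ N, s ≠ γ ∧ s ≠ δ)
    {α β : Γ} (hα : α ∉ N) (hβ : β ∈ N) : ∀ G ∈ K, G (.two α β) = 0 := by
  have h0 := lemma0 S hN ⟨β, hβ⟩ hα
  have hne : α ≠ β := fun h => hα (h.symm ▸ hβ)
  let l : P Γ →ₗ[ℂ] E := LinearMap.proj (.two α β)
  have hl : Continuous l := continuous_apply (Ix.two α β)
  refine core S hβ l hl ?_ ?_
  · intro G hG hu hm hum
    have h3 := (S.sub hG).1 α β hne
    obtain ⟨z, hz1, hz2⟩ := rigid2 hu hm hum h3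
    rw [h0 G hG] at hz2
    have hz0 : z = 0 := by
      rcases smul_eq_zero.1 hz2.symm with h | h
      · exact h
      · exfalso
        have : nsq (cj (G .star)) = 0 := by rw [h]; simp
        rw [nsq_cj, hm] at this
        norm_num at this
    rw [hz0, zero_smul] at hz1
    exact hz1
  · intro G hG hm hum
    have h3 := (S.sub hG).1 α β hne
    unfold quad at h3
    rw [hum] at h3
    exact rigid4 hm h3

end Pool.Agent.Lib.MP_54c5a6_an
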