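import Pool.Agent.Lib.MP_54c5a6_an.Gadget

/-!
# The compact absolutely convex set `B` and its test elements
-/

namespace Pool.Agent.Lib.MP_54c5a6_an

open Complex

/-- coordinates: `*`, `α`, `(α, β)` -/
inductive Ix (Γ : Type) : Type
  | star : Ix Γ
  | one : Γ → Ix Γ
  | two : Γ → Γ → Ix Γ

/-- The ambient locally convex space. -/
abbrev P (Γ : Type) : Type := Ix Γ → E

variable {Γ : Type}

/-- the quadruple `(F_{αβ}, F_α, F_β, F_*)` -/
def quad (F : P Γ) (α β : Γ) : Q4 := (F (.two α β), F (.one α), F (.one β), F .star)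

/-- The compact absolutely convex set. -/
def B (Γ : Type) : Set (P Γ) := {F | (∀ α β, α ≠ β → quad F α β ∈ U) ∧ ∀ α, F (.two α α) = 0}

lemma quad_add (F G : P Γ) (α β : Γ) : quad (F + G) α β = quad F α β + quad G α β := rfl

lemma quad_smul (c : ℂ) (F : P Γ) (α β : Γ) : quad (c • F) α β = c • quad F α β := rfl

lemma continuous_quad (α β : Γ) : Continuous fun F : P Γ => quad F α β := by
  unfold quad
  fun_prop

lemma zero_mem_B : (0 : P Γ) ∈ B Γ := ⟨fun _ _ _ => zero_mem_U, fun _ => rfl⟩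

lemma abs_B {s t : ℂ} (hst : ‖s‖ + ‖t‖ ≤ 1) {F G : P Γ} (hF : F ∈ B Γ) (hG : G ∈ B Γ) :
    s • F + t • G ∈ B Γ := by
  refine ⟨fun α β hαβ => ?_, fun α => ?_⟩
  · rw [quad_add, quad_smul, quad_smul]
    exact abs_U hst (hF.1 α β hαβ) (hG.1 α β hαβ)
  · simp [hF.2 α, hG.2 α]

lemma isClosed_B : IsClosed (B Γ) := by
  have h1 : B Γ = (⋂ (α : Γ) (β : Γ) (_ : α ≠ β), {F : P Γ | quad F α β ∈ U}) ∩
      ⋂ (α : Γ), {F : P Γ | F (.two α α) = 0} := by
    ext F
    simp [B]
  rw [h1]
  apply IsClosed.inter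
  · refine isClosed_iInter fun α => isClosed_iInter fun β => isClosed_iInter fun _ => ?_
    exact isCompact_U.isClosed.preimage (continuous_quad α β)
  · exact isClosed_iInter fun α => isClosed_eq (continuous_apply _) continuous_const

lemma nsq_le_of_mem_B [Nontrivial Γ] {F : P Γ} (hF : F ∈ B Γ) (j : Ix Γ) : nsq (F j) ≤ 1 := by
  rcases j with _ | α | ⟨α, β⟩
  · obtain ⟨α, β, h⟩ := exists_pair_ne Γ
    exact (nsq_le_of_mem_U (hF.1 α β h)).2.2.2
  · obtain ⟨β, h⟩ := exists_ne α
    exact (nsq_le_of_mem_U (hF.1 α β h.symm)).2.1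
  · by_cases h : α = β
    · subst h
      rw [hF.2 α]; simp
    · exact (nsq_le_of_mem_U (hF.1 α β h)).1

lemma isCompact_B [Nontrivial Γ] : IsCompact (B Γ) := by
  refine IsCompact.of_isClosed_subset (isCompact_univ_pi fun _ : Ix Γ => isCompact_nsq_le)
    isClosed_B ?_
  intro F hF j _
  exact nsq_le_of_mem_B hF j

lemma quarter_mem_B {F : P Γ} (hF : ∀ j, nsq (F j) ≤ 1) (h0 : ∀ α, F (.two α α) = 0) :
    (1 / 4 : ℂ) • F ∈ B Γ := by
  refine ⟨fun α β _ => ?_, fun α => ?_⟩
  · rw [quad_smul]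
    exact quarter_mem (hF _) (hF _) (hF _) (hF _)
  · simp [h0 α]

open Classical in
/-- a single coordinate direction -/
noncomputable def Y (j : Ix Γ) : E →ₗ[ℂ] P Γ := LinearMap.single ℂ (fun _ : Ix Γ => E) j

lemma Y_same (j : Ix Γ) (x : E) : Y j x j = x := by
  simp [Y]

lemma Y_ne {i j : Ix Γ} (h : i ≠ j) (x : E) : Y j x i = 0 := by
  simp [Y, h]

open Classical in
lemma Y_apply (i j : Ix Γ) (x : E) : Y j x i = if i = j then x else 0 := by
  split_ifs with h
  · subst h; exact Y_same _ _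
  · exact Y_ne h _

open Classical in
/-- the base element: `F_* = m`, `F_γ = 0`, `F_{γ s} = 0`, `F_{γδ} = m` for `δ ≠ s`. -/
noncomputable def M (s : Γ) : E →ₗ[ℂ] P Γ where
  toFun m := fun j => match j with
    | .star => m
    | .one _ => 0
    | .two γ δ => if γ = δ then 0 else if δ = s then 0 else m
  map_add' x y := by
    funext j
    rcases j with _ | α | ⟨α, β⟩
    · simp
    · simp
    · simp only [Pi.add_apply]
      split_ifs <;> simp
  map_smul' c x := by
    funext j
    rcases j with _ | α | ⟨α, β⟩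
    · simp
    · simp
    · simp only [Pi.smul_apply]
      split_ifs <;> simp

@[simp] lemma M_star (s : Γ) (m : E) : M s m .star = m := rfl

@[simp] lemma M_one (s γ : Γ) (m : E) : M s m (.one γ) = 0 := rfl

@[simp] lemma M_self (s γ : Γ) (m : E) : M s m (.two γ γ) = 0 := by
  classical
  show (if γ = γ then 0 else if γ = s then 0 else m) = 0
  simp

lemma M_right (s γ : Γ) (m : E) : M s m (.two γ s) = 0 := by
  classical
  show (if γ = s then 0 else if s = s then 0 else m) = 0
  simp

lemma M_two {s γ δ : Γ} (h1 : γ ≠ δ) (h2 : δ ≠ s) (m : E) : M s m (.two γ δ) = m := by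
  classical
  show (if γ = δ then 0 else if δ = s then 0 else m) = m
  simp [h1, h2]

lemma nsq_M_le (s : Γ) {m : E} (hm : nsq m ≤ 1) (j : Ix Γ) : nsq (M s m j) ≤ 1 := by
  rcases j with _ | α | ⟨α, β⟩
  · simpa using hm
  · simp
  · by_cases h1 : α = β
    · subst h1; simp
    · by_cases h2 : β = s
      · subst h2; rw [M_right]; simp
      · rw [M_two h1 h2]; exact hm

lemma G1_mem {s : Γ} {u m : E} (hu : nsq u ≤ 1) (hm : nsq m ≤ 1) :
    M s m + Y (.one s) u ∈ B Γ := by
  refine ⟨fun α β hαβ => ?_, fun α => ?_⟩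
  · have hst : (M s m + Y (.one s) u) .star = m := by simp [Y_apply]
    by_cases hα : α = s
    · subst hα
      have e1 : (M α m + Y (.one α) u) (.two α β) = m := by
        simp [Y_apply, M_two hαβ (Ne.symm hαβ)]
      have e2 : (M α m + Y (.one α) u) (.one α) = u := by simp [Y_apply]
      have e3 : (M α m + Y (.one α) u) (.one β) = 0 := by simp [Y_apply, Ne.symm hαβ]
      unfold quad
      rw [e1, e2, e3, hst]
      exact mem_mu0m hm hu
    · by_cases hβ : β = s
      · subst hβ
        have e1 : (M β m + Y (.one β) u) (.two α β) = 0 := by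
          simp [Y_apply, M_right]
        have e2 : (M β m + Y (.one β) u) (.one α) = 0 := by simp [Y_apply, hα]
        have e3 : (M β m + Y (.one β) u) (.one β) = u := by simp [Y_apply]
        unfold quad
        rw [e1, e2, e3, hst]
        exact mem_00vm hm hu
      · have e1 : (M s m + Y (.one s) u) (.two α β) = m := by
          simp [Y_apply, M_two hαβ hβ]
        have e2 : (M s m + Y (.one s) u) (.one α) = 0 := by simp [Y_apply, hα]
        have e3 : (M s m + Y (.one s) u) (.one β) = 0 := by simp [Y_apply, hβ]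
        unfold quad
        rw [e1, e2, e3, hst]
        exact mem_t00m hm hm
  · simp [Y_apply]

lemma G1t_mem {s γ δ : Γ} (hγ : γ ≠ s) (hδ : δ ≠ s) (hγδ : γ ≠ δ) {u m t : E} (hu : nsq u ≤ 1)
    (hm : nsq m ≤ 1) (ht : nsq t ≤ 1) :
    M s m + Y (.one s) u + Y (.two γ δ) (t - m) ∈ B Γ := by
  have hG1 := G1_mem (s := s) hu hm
  refine ⟨fun α β hαβ => ?_, fun α => ?_⟩
  · by_cases h : α = γ ∧ β = δ
    · obtain ⟨rfl, rfl⟩ := h
      have e0 : (M s m + Y (.one s) u + Y (.two α β) (t - m)) .star = m := by simp [Y_apply]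
      have e1 : (M s m + Y (.one s) u + Y (.two α β) (t - m)) (.two α β) = t := by
        simp [Y_apply, M_two hαβ hδ]
      have e2 : (M s m + Y (.one s) u + Y (.two α β) (t - m)) (.one α) = 0 := by
        simp [Y_apply, hγ]
      have e3 : (M s m + Y (.one s) u + Y (.two α β) (t - m)) (.one β) = 0 := by
        simp [Y_apply, hδ]
      unfold quad
      rw [e0, e1, e2, e3]
      exact mem_t00m hm ht
    · have e : quad (M s m + Y (.one s) u + Y (.two γ δ) (t - m)) α β =
          quad (M s m + Y (.one s) u) α β := by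
        rw [quad_add _ (Y (.two γ δ) (t - m))]
        have : quad (Y (.two γ δ) (t - m)) α β = 0 := by
          have h' : ¬ (Ix.two α β = Ix.two γ δ) := by
            intro he
            rw [Ix.two.injEq] at he
            exact h he
          simp only [quad, Y_apply, h', if_false, reduceCtorEq]
          rfl
        rw [this, add_zero]
      rw [e]
      exact hG1.1 α β hαβ
  · have h' : ¬ (Ix.two α α = Ix.two γ δ) := by
      intro he
      rw [Ix.two.injEq] at he
      exact hγδ (he.1.symm.trans he.2)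
    have := hG1.2 α
    rw [Pi.add_apply, this, Y_ne h', add_zero]

lemma G2_mem {s γ : Γ} (hγ : γ ≠ s) {u m : E} (hu : nsq u ≤ 1) (hm : nsq m ≤ 1) :
    M s m + Y (.one s) u + Y (.one γ) (cj m) + Y (.two γ s) (cj u) ∈ B Γ := by
  set F := M s m + Y (.one s) u + Y (.one γ) (cj m) + Y (.two γ s) (cj u) with hF
  have f0 : F .star = m := by simp [hF, Y_apply]
  have f1 : F (.one s) = u := by simp [hF, Y_apply, Ne.symm hγ]
  have f2 : F (.one γ) = cj m := by simp [hF, Y_apply, hγ]
  have f3 : ∀ α, α ≠ s → α ≠ γ → F (.one α) = 0 := by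
    intro α h1 h2
    simp [hF, Y_apply, h1, h2]
  have f4 : F (.two γ s) = cj u := by simp [hF, Y_apply, M_right]
  have f5 : ∀ α, α ≠ γ → F (.two α s) = 0 := by
    intro α h1
    simp [hF, Y_apply, h1, M_right]
  have f6 : ∀ α β, α ≠ β → β ≠ s → F (.two α β) = m := by
    intro α β h1 h2
    simp [hF, Y_apply, M_two h1 h2, h2]
  have f7 : ∀ α, F (.two α α) = 0 := by
    intro α
    have h' : ¬ (α = γ ∧ α = s) := by
      rintro ⟨h1, h2⟩
      exact hγ (h1.symm.trans h2)
    simp [hF, Y_apply, h']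
  refine ⟨fun α β hαβ => ?_, f7⟩
  unfold quad
  rw [f0]
  by_cases hβ : β = s
  · rw [hβ, f1]
    rw [hβ] at hαβ
    by_cases hα : α = γ
    · rw [hα, f4, f2]
      exact mem_R1 hm hu
    · rw [f5 α hα, f3 α hαβ hα]
      exact mem_00vm hm hu
  · rw [f6 α β hαβ hβ]
    by_cases hα : α = s
    · rw [hα, f1]
      by_cases hβ' : β = γ
      · rw [hβ', f2]
        exact mem_L1 hm hu
      · rw [f3 β hβ hβ']
        exact mem_mu0m hm hu
    · by_cases hα' : α = γ
      · rw [hα', f2]
        rw [hα'] at hαβ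
        rw [f3 β hβ (Ne.symm hαβ)]
        exact mem_mu0m hm (by rwa [nsq_cj])
      · rw [f3 α hα hα']
        by_cases hβ' : β = γ
        · rw [hβ', f2]
          exact mem_L1 hm (by simp)
        · rw [f3 β hβ hβ']
          exact mem_t00m hm hm

lemma G3_mem {s γ : Γ} (hγ : γ ≠ s) {v m : E} (hv : nsq v ≤ 1) (hm : nsq m ≤ 1) :
    M γ m + Y (.one s) (cj m) + Y (.one γ) v + Y (.two s γ) (cj v) ∈ B Γ := by
  set F := M γ m + Y (.one s) (cj m) + Y (.one γ) v + Y (.two s γ) (cj v) with hF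
  have f0 : F .star = m := by simp [hF, Y_apply]
  have f1 : F (.one s) = cj m := by simp [hF, Y_apply, Ne.symm hγ]
  have f2 : F (.one γ) = v := by simp [hF, Y_apply, hγ]
  have f3 : ∀ α, α ≠ s → α ≠ γ → F (.one α) = 0 := by
    intro α h1 h2
    simp [hF, Y_apply, h1, h2]
  have f4 : F (.two s γ) = cj v := by simp [hF, Y_apply, M_right]
  have f5 : ∀ α, α ≠ s → F (.two α γ) = 0 := by
    intro α h1
    simp [hF, Y_apply, h1, M_right]
  have f6 : ∀ α β, α ≠ β → β ≠ γ → F (.two α β) = m := by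
    intro α β h1 h2
    simp [hF, Y_apply, M_two h1 h2, h2]
  have f7 : ∀ α, F (.two α α) = 0 := by
    intro α
    have h' : ¬ (α = s ∧ α = γ) := by
      rintro ⟨h1, h2⟩
      exact hγ (h2.symm.trans h1)
    simp [hF, Y_apply, h']
  refine ⟨fun α β hαβ => ?_, f7⟩
  unfold quad
  rw [f0]
  by_cases hβ : β = γ
  · rw [hβ, f2]
    rw [hβ] at hαβ
    by_cases hα : α = s
    · rw [hα, f4, f1]
      exact mem_R1 hm hv
    · rw [f5 α hα, f3 α hα hαβ]
      exact mem_00vm hm hv
  · rw [f6 α β hαβ hβ]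
    by_cases hα : α = s
    · rw [hα, f1]
      rw [hα] at hαβ
      rw [f3 β (Ne.symm hαβ) hβ]
      exact mem_mu0m hm (by rwa [nsq_cj])
    · by_cases hα' : α = γ
      · rw [hα', f2]
        by_cases hβ' : β = s
        · rw [hβ', f1]
          exact mem_L1 hm hv
        · rw [f3 β hβ' hβ]
          exact mem_mu0m hm hv
      · rw [f3 α hα hα']
        by_cases hβ' : β = s
        · rw [hβ', f1]
          exact mem_L1 hm (by simp)
        · rw [f3 β hβ' hβ]
          exact mem_t00m hm hm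

end Pool.Agent.Lib.MP_54c5a6_an
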